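import Mathlib
import Pool.Agent.Q208.MT.Thr

/-! # MP_77d073_nt: the Markov threshold of Oppenheim's conjecture

Let `n ≥ 3`. Consider the systems `L` of `n` linear forms with determinant `±1`, and the minimum of
the absolute value of their product `F L` at the nonzero integer points. There is a constant
`0 ≤ m ≤ n! / n ^ n` (which depends only on `n`) with the following properties.

1. Oppenheim's conjecture holds in dimension `n` if and only if `m = 0`.
2. For every `c > m` the products `F L` which are at least `c` at the nonzero integer points fall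
   into finitely many classes under integral changes of variables of determinant `±1`, and all these
   `L` satisfy Oppenheim's conclusion.
3. For every `0 < c ≤ m` (so also for `c = m` if `m > 0`) there are uncountably many classes of
   counterexamples which are at least `c` at the nonzero integer points, even if products which
   differ by a constant factor are identified.
4. If `m > 0`, then there is an extremal counterexample `L`, whose minimum is `m` and is attained,
   and which is recurrent; all limits of the systems `a i • (L i ∘ γ)` are counterexamples with the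
   same infimum `m`.
5. If `m > 0`, then for all `i ≠ j` and all `t` there is an extremal counterexample `L` which
   remains an extremal counterexample when `L i` is replaced by `L i + t • L j`.

So for every single level `c > 0` Oppenheim's conjecture for the forms above `c` is equivalent to
the finiteness of the number of classes, and to its countability. (Markov's theorem says that for
`n = 2` there are finitely many classes above each `c > 1 / 3` and uncountably many at `1 / 3`,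
relative to the square root of the discriminant.) -/

set_option autoImplicit false

open Filter Topology

namespace Pool.Agent.Results.MP_77d073_nt.MarkovThreshold

variable {n : ℕ}

/-- the product of the linear forms with the coefficients `L i`, at an integer point -/
noncomputable def F (L : Fin n → Fin n → ℝ) (p : Fin n → ℤ) : ℝ :=
  ∏ i : Fin n, ∑ j : Fin n, L i j * (p j : ℝ)

/-- Oppenheim's conclusion: there is an irreducible RS-matrix whose invariant planes are the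
hyperplanes `L i = 0`. -/
def HasMatrix (L : Fin n → Fin n → ℝ) : Prop :=
  ∃ A : Matrix (Fin n) (Fin n) ℤ,
    A.det = 1 ∧
    Irreducible (A.charpoly.map (Int.castRingHom ℚ)) ∧
    (∀ z : ℂ, Polynomial.aeval z A.charpoly = 0 → z.im = 0) ∧
    ∀ i : Fin n, ∀ x : Fin n → ℝ, ∑ j, L i j * x j = 0 →
      ∑ j, L i j * ((A.map (Int.cast : ℤ → ℝ)).mulVec x) j = 0

/-- Oppenheim's conjecture in dimension `n` -/
def Oppenheim (n : ℕ) : Prop :=
  ∀ L : Fin n → Fin n → ℝ, LinearIndependent ℝ L →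
    (∃ ν : ℝ, 0 < ν ∧ ∀ p : Fin n → ℤ, p ≠ 0 → ν ≤ |F L p|) → HasMatrix L

/-- the systems with determinant `±1` whose product is at least `c` at the nonzero integer points -/
def Above (n : ℕ) (c : ℝ) : Set (Fin n → Fin n → ℝ) :=
  {L | |(Matrix.of L).det| = 1 ∧ ∀ p : Fin n → ℤ, p ≠ 0 → c ≤ |F L p|}

/-- The limits of the systems `a i • (L i ∘ γ)`, `a` positive of product one, `γ` integral of
determinant `±1`. -/
def Limits (L : Fin n → Fin n → ℝ) : Set (Fin n → Fin n → ℝ) :=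
  closure {L' | ∃ (a : Fin n → ℝ) (γ : Matrix (Fin n) (Fin n) ℤ), (∀ i, 0 < a i) ∧
    ∏ i, a i = 1 ∧ |γ.det| = 1 ∧ ∀ i j, L' i j = a i * ∑ k, L i k * (γ k j : ℝ)}

/-- `L` is a limit of each of its limits. -/
def Recurrent (L : Fin n → Fin n → ℝ) : Prop := ∀ L' ∈ Limits L, L ∈ Limits L'

/-- `L i` is replaced by `L i + t • L j`. -/
def addForm (L : Fin n → Fin n → ℝ) (i j : Fin n) (t : ℝ) : Fin n → Fin n → ℝ :=
  Function.update L i (L i + t • L j)

lemma limits_eq (L : Fin n → Fin n → ℝ) (L' : Fin n → Fin n → ℝ) :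
    L' ∈ Limits L ↔ Matrix.of L' ∈ closure (H715R2.Orb (Matrix.of L)) := by
  have h1 : {L' : Fin n → Fin n → ℝ | ∃ (a : Fin n → ℝ) (γ : Matrix (Fin n) (Fin n) ℤ),
      (∀ i, 0 < a i) ∧ ∏ i, a i = 1 ∧ |γ.det| = 1 ∧
      ∀ i j, L' i j = a i * ∑ k, L i k * (γ k j : ℝ)} =
      (H715R2.Orb (Matrix.of L) : Set (Fin n → Fin n → ℝ)) := by
    ext h
    constructor
    · rintro ⟨a, γ, ha0, ha1, hγ, hh⟩
      refine ⟨a, γ, ha0, ha1, Int.isUnit_iff_abs_eq.2 hγ, ?_⟩
      funext i j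
      rw [hh, Matrix.mul_assoc, Matrix.diagonal_mul, Matrix.mul_apply]
      rfl
    · rintro ⟨a, γ, ha0, ha1, hγ, hh⟩
      refine ⟨a, γ, ha0, ha1, Int.isUnit_iff_abs_eq.1 hγ, fun i j => ?_⟩
      rw [hh, Matrix.mul_assoc, Matrix.diagonal_mul, Matrix.mul_apply]
      rfl
  unfold Limits
  rw [h1]
  rfl

lemma indep_of_det {L : Fin n → Fin n → ℝ} (h : (Matrix.of L).det ≠ 0) :
    LinearIndependent ℝ L := by
  have h1 : IsUnit (Matrix.of L) :=
    (Matrix.isUnit_iff_isUnit_det _).2 (isUnit_iff_ne_zero.2 h)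
  exact Matrix.linearIndependent_rows_iff_isUnit.2 h1

lemma hasMatrix_iff (hn : 3 ≤ n) {L : Fin n → Fin n → ℝ} (hL : (Matrix.of L).det ≠ 0) {ν : ℝ}
    (hν : 0 < ν) (hF : ∀ p : Fin n → ℤ, p ≠ 0 → ν ≤ |F L p|) :
    HasMatrix L ↔ H715R2.PropInt (Matrix.of L) := by
  constructor
  · rintro ⟨A, -, hA1, -, hA2⟩
    exact Y327.propInt_of_opp hn hL hν hF hA1 hA2
  · exact Pool.Agent.H905R2.Opp.opp_of_propInt (by omega) (indep_of_det hL) ⟨ν, hν, hF⟩

lemma exists_perm {i j i' j' : Fin n} (hij : i ≠ j) (hij' : i' ≠ j') :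
    ∃ σ : Equiv.Perm (Fin n), σ i = i' ∧ σ j = j' := by
  have h1 : Equiv.swap i i' j ≠ i' := by
    intro h
    have h2 : Equiv.swap i i' i = i' := Equiv.swap_apply_left i i'
    exact hij ((Equiv.swap i i').injective (h2.trans h.symm))
  refine ⟨(Equiv.swap i i').trans (Equiv.swap (Equiv.swap i i' j) j'), ?_, ?_⟩
  · rw [Equiv.trans_apply, Equiv.swap_apply_left, Equiv.swap_apply_of_ne_of_ne h1.symm hij']
  · rw [Equiv.trans_apply, Equiv.swap_apply_left]

lemma F_perm (σ : Equiv.Perm (Fin n)) (L : Fin n → Fin n → ℝ) (p : Fin n → ℤ) :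
    F (fun k => L (σ k)) p = F L p := by
  unfold F
  exact Equiv.prod_comp σ (fun k => ∑ j, L k j * (p j : ℝ))

lemma absDet_perm (σ : Equiv.Perm (Fin n)) (L : Fin n → Fin n → ℝ) :
    |(Matrix.of fun k => L (σ k)).det| = |(Matrix.of L).det| := by
  have h1 : (Matrix.of fun k => L (σ k)) = (Matrix.of L).submatrix σ id := rfl
  rw [h1, Matrix.det_permute, abs_mul]
  rcases Int.units_eq_one_or (Equiv.Perm.sign σ) with h | h <;> rw [h] <;> simp

lemma hasMatrix_perm (σ : Equiv.Perm (Fin n)) {L : Fin n → Fin n → ℝ}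
    (h : HasMatrix (fun k => L (σ k))) : HasMatrix L := by
  obtain ⟨A, h1, h2, h3, h4⟩ := h
  refine ⟨A, h1, h2, h3, fun i x hx => ?_⟩
  have := h4 (σ.symm i) x
  simp only [Equiv.apply_symm_apply] at this
  exact this hx

lemma of_addForm (L : Fin n → Fin n → ℝ) {i j : Fin n} (t : ℝ) :
    Matrix.of (addForm L i j t) = Matrix.transvection i j t * Matrix.of L := by
  ext k l
  by_cases hk : k = i
  · subst hk
    rw [Matrix.transvection_mul_apply_same]
    simp [addForm]
  · rw [Matrix.transvection_mul_apply_of_ne _ _ _ _ hk]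
    simp [addForm, Function.update_of_ne hk]

lemma addForm_perm (σ : Equiv.Perm (Fin n)) (L : Fin n → Fin n → ℝ) (i j : Fin n) (t : ℝ) :
    addForm (fun k => L (σ k)) i j t = fun k => addForm L (σ i) (σ j) t (σ k) := by
  funext k
  by_cases hk : k = i
  · subst hk
    simp only [addForm, Function.update_self]
  · have hk' : σ k ≠ σ i := fun h0 => hk (σ.injective h0)
    simp only [addForm, Function.update_of_ne hk, Function.update_of_ne hk']

lemma ne_zero_of_above {c : ℝ} {L : Fin n → Fin n → ℝ} (hL : L ∈ Above n c) :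
    (Matrix.of L).det ≠ 0 := by
  rw [← abs_ne_zero, hL.1]; exact one_ne_zero

/-- the case of a failure of the conjecture -/
lemma failure (hn : 3 ≤ n) {m : ℝ} (hm : 0 < m)
    (hex : ∃ h : Matrix (Fin n) (Fin n) ℝ, |h.det| = 1 ∧ H715R2.HasNu h m ∧ ¬ H715R2.PropInt h)
    (hmax : ∀ (g : Matrix (Fin n) (Fin n) ℝ) (ν : ℝ), |g.det| = 1 → H715R2.HasNu g ν →
      ¬ H715R2.PropInt g → ν ≤ m) :
    (∃ L ∈ Above n m, ¬ HasMatrix L ∧ Recurrent L ∧ (∃ p : Fin n → ℤ, p ≠ 0 ∧ |F L p| = m) ∧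
      ∀ L' ∈ Limits L, ¬ HasMatrix L' ∧
        IsGLB {t : ℝ | ∃ p : Fin n → ℤ, p ≠ 0 ∧ |F L' p| = t} m) ∧
    ∀ i j : Fin n, i ≠ j → ∀ t : ℝ, ∃ L ∈ Above n m, addForm L i j t ∈ Above n m ∧
      ¬ HasMatrix L ∧ ¬ HasMatrix (addForm L i j t) := by
  obtain ⟨g, hg1, hgν, hgP⟩ := hex
  have hg0 : g.det ≠ 0 := by rw [← abs_ne_zero, hg1]; exact one_ne_zero
  constructor
  · obtain ⟨h, hh, hrec, p₀, hp₀, hmin⟩ :=
      TH314.CSD.exists_recurrent_attained (by omega) hm hg0 hgν
    obtain ⟨L, rfl⟩ : ∃ L : Fin n → Fin n → ℝ, Matrix.of L = h := ⟨h, rfl⟩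
    have hL1 : |(Matrix.of L).det| = 1 := by rw [H715R2.abs_det_closure hh, hg1]
    have hL0 : (Matrix.of L).det ≠ 0 := by rw [← abs_ne_zero, hL1]; exact one_ne_zero
    have hLν := H715R2.hasNu_closure hgν hh
    have hLP := Y327.not_propInt_closure hn hg0 hm hgν hgP hh
    refine ⟨L, ⟨hL1, hLν⟩, fun hA => hLP ((hasMatrix_iff hn hL0 hm hLν).1 hA), ?_,
      ⟨p₀, hp₀, le_antisymm (hmax _ _ hL1 hmin hLP) (hLν p₀ hp₀)⟩, ?_⟩
    · intro L' hL'
      rw [limits_eq] at hL' ⊢
      exact hrec _ hL'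
    · intro L' hL'
      rw [limits_eq] at hL'
      have h1 : |(Matrix.of L').det| = 1 := by rw [H715R2.abs_det_closure hL', hL1]
      have h0 : (Matrix.of L').det ≠ 0 := by rw [← abs_ne_zero, h1]; exact one_ne_zero
      have hν' := H715R2.hasNu_closure hLν hL'
      have hP' := Y327.not_propInt_closure hn hL0 hm hLν hLP hL'
      refine ⟨fun hA => hP' ((hasMatrix_iff hn h0 hm hν').1 hA), ?_, ?_⟩
      · rintro t ⟨p, hp, rfl⟩
        exact hν' p hp
      · intro b hb
        exact hmax _ b h1 (fun p hp => hb ⟨p, hp, rfl⟩) hP'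
  · intro i j hij t
    obtain ⟨s, c, hs, hsd, hcard, hroot, -⟩ := Y327.exists_classes hn hg0 hm hgν hgP
    obtain ⟨i', j', hij', hc⟩ : ∃ i' j' : Fin n, i' ≠ j' ∧ c i' = c j' := by
      have h1 := hcard ⟨0, by omega⟩
      rw [← h1, Nat.card_eq_fintype_card, Fintype.one_lt_card_iff] at hs
      obtain ⟨⟨a, ha⟩, ⟨b, hb⟩, hab⟩ := hs
      exact ⟨a, b, fun h => hab (Subtype.ext h), ha.trans hb.symm⟩
    obtain ⟨h, hh, hh'⟩ := hroot i' j' hij' hc t
    obtain ⟨L', rfl⟩ : ∃ L' : Fin n → Fin n → ℝ, Matrix.of L' = h := ⟨h, rfl⟩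
    rw [← of_addForm] at hh'
    obtain ⟨σ, hσi, hσj⟩ := exists_perm hij hij'
    have key : ∀ L'' : Fin n → Fin n → ℝ, Matrix.of L'' ∈ closure (H715R2.Orb g) →
        (fun k => L'' (σ k)) ∈ Above n m ∧ ¬ HasMatrix (fun k => L'' (σ k)) := by
      intro L'' hL''
      have h1 : |(Matrix.of L'').det| = 1 := by rw [H715R2.abs_det_closure hL'', hg1]
      have h0 : (Matrix.of L'').det ≠ 0 := by rw [← abs_ne_zero, h1]; exact one_ne_zero
      have hν'' := H715R2.hasNu_closure hgν hL''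
      have hP'' := Y327.not_propInt_closure hn hg0 hm hgν hgP hL''
      refine ⟨⟨by rw [absDet_perm, h1], fun p hp => ?_⟩, fun hA => ?_⟩
      · rw [F_perm]
        exact hν'' p hp
      · exact hP'' ((hasMatrix_iff hn h0 hm hν'').1 (hasMatrix_perm σ hA))
    refine ⟨fun k => L' (σ k), (key L' hh).1, ?_, (key L' hh).2, ?_⟩
    · rw [addForm_perm, hσi, hσj]
      exact (key _ hh').1
    · rw [addForm_perm, hσi, hσj]
      exact (key _ hh').2

/-- scaling one form -/
lemma scale (hn : 3 ≤ n) {L : Fin n → Fin n → ℝ} (hL : (Matrix.of L).det ≠ 0) {ν : ℝ}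
    (hν : 0 < ν) (hF : ∀ p : Fin n → ℤ, p ≠ 0 → ν ≤ |F L p|)
    (hall : ∀ c : ℝ, 0 < c → ∀ L ∈ Above n c, HasMatrix L) : HasMatrix L := by
  classical
  set i₀ : Fin n := ⟨0, by omega⟩ with hi₀
  set δ : ℝ := |(Matrix.of L).det| with hδ
  have hδ0 : 0 < δ := abs_pos.2 hL
  set a : Fin n → ℝ := Function.update (fun _ => 1) i₀ δ⁻¹ with ha
  have hap : ∏ i, a i = δ⁻¹ := by
    rw [← Finset.mul_prod_erase _ _ (Finset.mem_univ i₀), ha, Function.update_self,
      Finset.prod_eq_one, mul_one]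
    intro i hi
    rw [Function.update_of_ne (Finset.ne_of_mem_erase hi)]
  have ha0 : ∀ i, a i ≠ 0 := by
    intro i h0
    have h1 : ∏ i, a i = 0 := Finset.prod_eq_zero (Finset.mem_univ i) h0
    rw [hap] at h1
    exact (inv_ne_zero hδ0.ne') h1
  have hM : Matrix.of (fun i j => a i * L i j) = Matrix.diagonal a * Matrix.of L := by
    ext i j
    rw [Matrix.diagonal_mul]
    rfl
  have hL' : (fun i j => a i * L i j) ∈ Above n (δ⁻¹ * ν) := by
    refine ⟨?_, fun p hp => ?_⟩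
    · rw [hM, Matrix.det_mul, Matrix.det_diagonal, hap, abs_mul, abs_of_pos (inv_pos.2 hδ0)]
      exact inv_mul_cancel₀ hδ0.ne'
    · have h1 : F (fun i j => a i * L i j) p = δ⁻¹ * F L p := by
        unfold F
        rw [← hap, ← Finset.prod_mul_distrib]
        refine Finset.prod_congr rfl fun i _ => ?_
        rw [Finset.mul_sum]
        refine Finset.sum_congr rfl fun j _ => ?_
        ring
      rw [h1, abs_mul, abs_of_pos (inv_pos.2 hδ0)]
      exact mul_le_mul_of_nonneg_left (hF p hp) (inv_pos.2 hδ0).le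
  obtain ⟨A, h1, h2, h3, h4⟩ := hall _ (by positivity) _ hL'
  refine ⟨A, h1, h2, h3, fun i x hx => ?_⟩
  have h5 := h4 i x (by
    have : ∑ j, a i * L i j * x j = a i * ∑ j, L i j * x j := by
      rw [Finset.mul_sum]
      exact Finset.sum_congr rfl fun j _ => by ring
    rw [this, hx, mul_zero])
  have h6 : ∑ j, a i * L i j * ((A.map (Int.cast : ℤ → ℝ)).mulVec x) j =
      a i * ∑ j, L i j * ((A.map (Int.cast : ℤ → ℝ)).mulVec x) j := by
    rw [Finset.mul_sum]
    exact Finset.sum_congr rfl fun j _ => by ring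
  rw [h6] at h5
  exact (mul_eq_zero.1 h5).resolve_left (ha0 i)

theorem result (n : ℕ) (hn : 3 ≤ n) : ∃ m : ℝ, 0 ≤ m ∧ m ≤ (n.factorial : ℝ) / (n : ℝ) ^ n ∧
    -- 1. the conjecture
    (Oppenheim n ↔ m = 0) ∧
    -- 2. finitely many classes above `m`
    (∀ c : ℝ, m < c → ∃ S : Finset (Fin n → Fin n → ℝ), ∀ L ∈ Above n c, HasMatrix L ∧
      ∃ L₀ ∈ S, ∃ γ : Matrix (Fin n) (Fin n) ℤ, |γ.det| = 1 ∧
        ∀ p : Fin n → ℤ, F L p = F L₀ (γ.mulVec p)) ∧
    -- 3. uncountably many classes of counterexamples at and below `m`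
    (∀ c : ℝ, 0 < c → c ≤ m → ∀ K : ℕ → Fin n → Fin n → ℝ, ∃ L ∈ Above n c, ¬ HasMatrix L ∧
      ∀ (k : ℕ) (γ : Matrix (Fin n) (Fin n) ℤ) (r : ℝ), |γ.det| = 1 →
        ∃ p : Fin n → ℤ, F L p ≠ r * F (K k) (γ.mulVec p)) ∧
    -- 4. an extremal counterexample
    (0 < m → ∃ L ∈ Above n m, ¬ HasMatrix L ∧ Recurrent L ∧
      (∃ p : Fin n → ℤ, p ≠ 0 ∧ |F L p| = m) ∧
      ∀ L' ∈ Limits L, ¬ HasMatrix L' ∧
        IsGLB {t : ℝ | ∃ p : Fin n → ℤ, p ≠ 0 ∧ |F L' p| = t} m) ∧
    -- 5. pairs of extremal counterexamples with `n - 1` common factors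
    (0 < m → ∀ i j : Fin n, i ≠ j → ∀ t : ℝ, ∃ L ∈ Above n m, addForm L i j t ∈ Above n m ∧
      ¬ HasMatrix L ∧ ¬ HasMatrix (addForm L i j t)) := by
  classical
  have hnn : (0 : ℝ) < (n : ℝ) ^ n := by
    have : (0 : ℝ) < n := by exact_mod_cast (by omega : 0 < n)
    positivity
  have fin : ∀ c : ℝ, 0 < c →
      (∀ h : Matrix (Fin n) (Fin n) ℝ, |h.det| = 1 → H715R2.HasNu h c → H715R2.PropInt h) →
      ∃ S : Finset (Fin n → Fin n → ℝ), ∀ L ∈ Above n c, HasMatrix L ∧
        ∃ L₀ ∈ S, ∃ γ : Matrix (Fin n) (Fin n) ℤ, |γ.det| = 1 ∧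
          ∀ p : Fin n → ℤ, F L p = F L₀ (γ.mulVec p) := by
    intro c hc hall
    obtain ⟨S, hS⟩ := Q208.MT.finite_classes hn one_pos hc hall
    refine ⟨S, fun L hL => ⟨(hasMatrix_iff hn (ne_zero_of_above hL) hc hL.2).2
      (hall _ hL.1 hL.2), ?_⟩⟩
    obtain ⟨h, hh, γ, hγ, hF⟩ := hS (Matrix.of L) hL.1 hL.2
    exact ⟨h, hh, γ, Int.isUnit_iff_abs_eq.1 hγ, hF⟩
  by_cases hcase : ∃ (ν₀ : ℝ) (g₀ : Matrix (Fin n) (Fin n) ℝ), 0 < ν₀ ∧ |g₀.det| = 1 ∧
      H715R2.HasNu g₀ ν₀ ∧ ¬ H715R2.PropInt g₀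
  · obtain ⟨ν₀, g₀, hν₀, hg₀, hnu₀, hint₀⟩ := hcase
    obtain ⟨m, hm, hex, hmax⟩ := Q208.MT.exists_extremal hn one_pos hν₀ hg₀ hnu₀ hint₀
    obtain ⟨h4, h5⟩ := failure hn hm hex hmax
    refine ⟨m, hm.le, ?_, ?_, ?_, ?_, fun _ => h4, fun _ => h5⟩
    · obtain ⟨h, hh1, hhν, -⟩ := hex
      rw [le_div_iff₀ hnn]
      by_contra hcon
      push Not at hcon
      obtain ⟨x, hx, hx1⟩ := H715R2.mink_prod (by omega : 0 < n) 1 m one_pos
        (by rw [mul_one, mul_comm]; exact hcon) h hh1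
      exact absurd (hhν x hx) (not_le.2 hx1)
    · constructor
      · intro hO
        obtain ⟨L, hL, hA, -⟩ := h4
        exact absurd (hO L (indep_of_det (ne_zero_of_above hL)) ⟨m, hm, hL.2⟩) hA
      · intro h0
        exact absurd h0 hm.ne'
    · intro c hc
      refine fin c (hm.trans hc) fun h hh hν => ?_
      by_contra hP
      exact absurd (hmax h c hh hν hP) (not_le.2 hc)
    · intro c hc hcm K
      obtain ⟨h, hh1, hhν, hhP⟩ := hex
      have hhc : H715R2.HasNu h c := Q208.MT.HasNu.mono' hhν hcm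
      have hh0 : h.det ≠ 0 := by rw [← abs_ne_zero, hh1]; exact one_ne_zero
      obtain ⟨g', hg', hg'ν, hg'P, hne⟩ :=
        H715R2.uncountable_family hn hh0 hc hhc hhP (fun k => Matrix.of (K k))
      obtain ⟨L, rfl⟩ : ∃ L : Fin n → Fin n → ℝ, Matrix.of L = g' := ⟨g', rfl⟩
      have hL1 : |(Matrix.of L).det| = 1 := by rw [H715R2.abs_det_closure hg', hh1]
      have hLm : L ∈ Above n c := ⟨hL1, hg'ν⟩
      refine ⟨L, hLm, fun hA => hg'P ((hasMatrix_iff hn (ne_zero_of_above hLm) hc hg'ν).1 hA),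
        fun k γ r hγ => ?_⟩
      exact hne k γ r (Int.isUnit_iff_abs_eq.2 hγ)
  · push Not at hcase
    have hall : ∀ c : ℝ, 0 < c → ∀ L ∈ Above n c, HasMatrix L := fun c hc L hL =>
      (hasMatrix_iff hn (ne_zero_of_above hL) hc hL.2).2 (hcase c _ hc hL.1 hL.2)
    refine ⟨0, le_rfl, by positivity, ?_, ?_, ?_, ?_, ?_⟩
    · refine ⟨fun _ => rfl, fun _ L hL hν => ?_⟩
      obtain ⟨ν, hν, hF⟩ := hν
      exact scale hn (Pool.Agent.H905R2.Opp.det_ne hL) hν hF hall
    · intro c hc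
      exact fin c hc fun h hh hν => hcase c h hc hh hν
    · intro c hc hc0
      exact absurd hc (not_lt.2 hc0)
    · intro h
      exact absurd h (lt_irrefl _)
    · intro h
      exact absurd h (lt_irrefl _)

end Pool.Agent.Results.MP_77d073_nt.MarkovThreshold
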