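import Mathlib
import Pool.Agent.H715R2.LimitAlg
import Pool.Agent.H905R2.OppD

/-! # MP_77d073_nt: one invariant hyperplane, of one limit, is enough

Let `n ≥ 3` and let `L 1, ..., L n` be independent real linear forms whose product is bounded away
from zero at the nonzero integer points. Oppenheim's conjecture says that there is an irreducible
RS-matrix which keeps all the `n` hyperplanes `L i = 0`. The following are equivalent.

1. There is such a matrix.
2. For some limit `L'` of the systems `a i • (L i ∘ γ)` (`a` positive of product one, `γ` integral of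
   determinant `±1`) the integral matrices which keep one of the hyperplanes `L' i = 0` have rank
   larger than `n / p`, `p` the smallest prime factor of `n`.
3. For some limit `L'` one of the hyperplanes `L' i = 0` is kept by an integral matrix with
   irreducible characteristic polynomial (of any determinant).
4. (`n` prime) For some limit `L'` one of the hyperplanes `L' i = 0` is kept by an integral matrix
   which is not scalar.
-/

set_option autoImplicit false

open Filter Topology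

namespace Pool.Agent.Results.MP_77d073_nt.OneHyperplane

variable {n : ℕ}

/-- the product of the linear forms with the coefficients `L i`, at an integer point -/
noncomputable def F (L : Fin n → Fin n → ℝ) (p : Fin n → ℤ) : ℝ :=
  ∏ i : Fin n, ∑ j : Fin n, L i j * (p j : ℝ)

/-- the product is bounded away from zero at the nonzero integer points -/
def BoundedAway (L : Fin n → Fin n → ℝ) : Prop :=
  ∃ ν : ℝ, 0 < ν ∧ ∀ p : Fin n → ℤ, p ≠ 0 → ν ≤ |F L p|

/-- The matrix `B` maps the hyperplane `ℓ = 0` to itself. -/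
def Keeps (B : Matrix (Fin n) (Fin n) ℤ) (ℓ : Fin n → ℝ) : Prop :=
  ∀ x : Fin n → ℝ, ∑ j, ℓ j * x j = 0 →
    ∑ j, ℓ j * ((B.map (Int.cast : ℤ → ℝ)).mulVec x) j = 0

/-- Oppenheim's conclusion: there is an irreducible RS-matrix whose invariant planes are the
hyperplanes `L i = 0`. -/
def HasMatrix (L : Fin n → Fin n → ℝ) : Prop :=
  ∃ A : Matrix (Fin n) (Fin n) ℤ,
    A.det = 1 ∧
    Irreducible (A.charpoly.map (Int.castRingHom ℚ)) ∧
    (∀ z : ℂ, Polynomial.aeval z A.charpoly = 0 → z.im = 0) ∧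
    ∀ i : Fin n, Keeps A (L i)

/-- The limits of the systems `a i • (L i ∘ γ)`, `a` positive of product one, `γ` integral of
determinant `±1`. -/
def Limits (L : Fin n → Fin n → ℝ) : Set (Fin n → Fin n → ℝ) :=
  closure {L' | ∃ (a : Fin n → ℝ) (γ : Matrix (Fin n) (Fin n) ℤ), (∀ i, 0 < a i) ∧
    ∏ i, a i = 1 ∧ |γ.det| = 1 ∧ ∀ i j, L' i j = a i * ∑ k, L i k * (γ k j : ℝ)}

/-! ### The module of the values of one form at the rational points -/

/-- the values of the form at the rational points -/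
noncomputable def ev (ℓ : Fin n → ℝ) : (Fin n → ℚ) →ₗ[ℚ] ℝ where
  toFun x := ∑ j, ℓ j * (x j : ℝ)
  map_add' x y := by
    simp only [Pi.add_apply, Rat.cast_add, mul_add, Finset.sum_add_distrib]
  map_smul' q x := by
    simp only [Pi.smul_apply, smul_eq_mul, Rat.cast_mul, RingHom.id_apply, Rat.smul_def,
      Finset.mul_sum]
    exact Finset.sum_congr rfl fun j _ => by ring

/-- the range of `ev` -/
noncomputable def W (ℓ : Fin n → ℝ) : Submodule ℚ ℝ := LinearMap.range (ev ℓ)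

instance (ℓ : Fin n → ℝ) : FiniteDimensional ℚ (W ℓ) := by unfold W; infer_instance

/-- the multipliers of `W` -/
noncomputable def mult (ℓ : Fin n → ℝ) : IntermediateField ℚ ℝ where
  carrier := {β | ∀ w ∈ W ℓ, β * w ∈ W ℓ}
  mul_mem' := by
    intro a b ha hb w hw
    rw [mul_assoc]
    exact ha _ (hb _ hw)
  add_mem' := by
    intro a b ha hb w hw
    rw [add_mul]
    exact (W ℓ).add_mem (ha _ hw) (hb _ hw)
  algebraMap_mem' := by
    intro q w hw
    have : algebraMap ℚ ℝ q * w = q • w := by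
      rw [Algebra.smul_def]
    rw [this]
    exact (W ℓ).smul_mem q hw
  inv_mem' := by
    intro β hβ w hw
    rcases eq_or_ne β 0 with h0 | h0
    · rw [h0, inv_zero, zero_mul]; exact (W ℓ).zero_mem
    · let f : W ℓ →ₗ[ℚ] W ℓ :=
        { toFun := fun w => ⟨β * w, hβ _ w.2⟩
          map_add' := fun x y => Subtype.ext (by simp [mul_add])
          map_smul' := fun q x => Subtype.ext (by simp) }
      have hinj : Function.Injective f := by
        intro x y hxy
        have h1 : β * (x : ℝ) = β * (y : ℝ) := congrArg Subtype.val hxy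
        exact Subtype.ext (mul_left_cancel₀ h0 h1)
      obtain ⟨w', hw'⟩ := (LinearMap.injective_iff_surjective (f := f)).1 hinj ⟨w, hw⟩
      have h2 : β * (w' : ℝ) = w := congrArg Subtype.val hw'
      rw [← h2, inv_mul_cancel_left₀ h0]
      exact w'.2

lemma mem_mult {ℓ : Fin n → ℝ} {β : ℝ} : β ∈ mult ℓ ↔ ∀ w ∈ W ℓ, β * w ∈ W ℓ := Iff.rfl

/-- The map `β ↦ β w` from the multipliers to `W`. -/
noncomputable def mulTo (ℓ : Fin n → ℝ) (w : W ℓ) : mult ℓ →ₗ[ℚ] W ℓ where
  toFun β := ⟨(β : ℝ) * w, β.2 _ w.2⟩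
  map_add' x y := Subtype.ext (by simp [add_mul])
  map_smul' q x := Subtype.ext (by simp [Rat.smul_def, mul_assoc])

lemma mulTo_inj (ℓ : Fin n → ℝ) (w : W ℓ) (hw : (w : ℝ) ≠ 0) : Function.Injective (mulTo ℓ w) := by
  intro x y hxy
  have h1 : (x : ℝ) * w = (y : ℝ) * w := congrArg Subtype.val hxy
  exact Subtype.ext (mul_right_cancel₀ hw h1)

lemma ev_single (ℓ : Fin n → ℝ) (j : Fin n) : ev ℓ (Pi.single j 1) = ℓ j := by
  show ∑ i, ℓ i * ((Pi.single j (1 : ℚ) : Fin n → ℚ) i : ℝ) = ℓ j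
  rw [Finset.sum_eq_single j]
  · simp
  · intro b _ hb
    simp [Pi.single_eq_of_ne hb]
  · intro h; exact absurd (Finset.mem_univ j) h

lemma coeff_mem (ℓ : Fin n → ℝ) (j : Fin n) : ℓ j ∈ W ℓ := ⟨Pi.single j 1, ev_single ℓ j⟩

lemma exists_ne {ℓ : Fin n → ℝ} (h : ℓ ≠ 0) : ∃ j, ℓ j ≠ 0 := by
  by_contra hcon
  push Not at hcon
  exact h (funext hcon)

lemma finite_mult {ℓ : Fin n → ℝ} (h : ℓ ≠ 0) : FiniteDimensional ℚ (mult ℓ) := by
  obtain ⟨j, hj⟩ := exists_ne h
  exact FiniteDimensional.of_injective (mulTo ℓ ⟨ℓ j, coeff_mem ℓ j⟩) (mulTo_inj ℓ _ hj)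

lemma finrank_W {ℓ : Fin n → ℝ} (hinj : Function.Injective (ev ℓ)) :
    Module.finrank ℚ (W ℓ) = n := by
  unfold W
  rw [LinearMap.finrank_range_of_inj hinj]
  simp

/-- `W` as a vector space over its multipliers -/
noncomputable def W' (ℓ : Fin n → ℝ) : Submodule (mult ℓ) ℝ where
  carrier := W ℓ
  add_mem' := (W ℓ).add_mem
  zero_mem' := (W ℓ).zero_mem
  smul_mem' := by
    intro c x hx
    exact c.2 x hx

lemma finrank_dvd {ℓ : Fin n → ℝ} (hinj : Function.Injective (ev ℓ)) :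
    Module.finrank ℚ (mult ℓ) ∣ n := by
  have h1 : Module.finrank ℚ (mult ℓ) * Module.finrank (mult ℓ) (W' ℓ) =
      Module.finrank ℚ (W' ℓ) := Module.finrank_mul_finrank ℚ (mult ℓ) (W' ℓ)
  have h2 : Module.finrank ℚ (W' ℓ) = n := by
    have e : W' ℓ ≃ₗ[ℚ] W ℓ :=
      { toFun := fun x => ⟨x.1, x.2⟩
        invFun := fun x => ⟨x.1, x.2⟩
        left_inv := fun _ => rfl
        right_inv := fun _ => rfl
        map_add' := fun _ _ => rfl
        map_smul' := fun q x => Subtype.ext rfl }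
    rw [e.finrank_eq, finrank_W hinj]
  rw [h2] at h1
  exact ⟨_, h1.symm⟩

/-- If the multipliers have degree `n` then the coefficients lie in a multiple of them. -/
lemma exists_scale {ℓ : Fin n → ℝ} (hne : ℓ ≠ 0) (hinj : Function.Injective (ev ℓ))
    (hK : Module.finrank ℚ (mult ℓ) = n) : ∃ s : ℝ, s ≠ 0 ∧ ∀ j, s * ℓ j ∈ mult ℓ := by
  obtain ⟨j₀, hj₀⟩ := exists_ne hne
  have hfin := finite_mult hne
  have hsurj : Function.Surjective (mulTo ℓ ⟨ℓ j₀, coeff_mem ℓ j₀⟩) := by
    refine (LinearMap.injective_iff_surjective_of_finrank_eq_finrank ?_).1 (mulTo_inj ℓ _ hj₀)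
    rw [hK, finrank_W hinj]
  refine ⟨(ℓ j₀)⁻¹, inv_ne_zero hj₀, fun j => ?_⟩
  obtain ⟨β, hβ⟩ := hsurj ⟨ℓ j, coeff_mem ℓ j⟩
  have h1 : (β : ℝ) * ℓ j₀ = ℓ j := congrArg Subtype.val hβ
  rw [← h1, mul_comm, mul_assoc, mul_inv_cancel₀ hj₀, mul_one]
  exact β.2

/-! ### Matrices which keep a hyperplane -/

/-- `B` multiplies the form `ℓ` by `β`. -/
def Acts (B : Matrix (Fin n) (Fin n) ℤ) (ℓ : Fin n → ℝ) (β : ℝ) : Prop :=
  ∀ x : Fin n → ℝ, ∑ j, ℓ j * ((B.map (Int.cast : ℤ → ℝ)).mulVec x) j = β * ∑ j, ℓ j * x j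

lemma exists_acts {B : Matrix (Fin n) (Fin n) ℤ} {ℓ : Fin n → ℝ} (hne : ℓ ≠ 0) (h : Keeps B ℓ) :
    ∃ β, Acts B ℓ β := by
  obtain ⟨j₀, hj₀⟩ := exists_ne hne
  set M : Matrix (Fin n) (Fin n) ℝ := B.map (Int.cast : ℤ → ℝ) with hM
  have hdot : ∀ x : Fin n → ℝ, ∑ j, ℓ j * x j = ℓ ⬝ᵥ x := fun x => rfl
  refine ⟨(ℓ ⬝ᵥ M.mulVec (Pi.single j₀ 1)) / ℓ j₀, fun x => ?_⟩
  rw [hdot, hdot]
  set c : ℝ := (ℓ ⬝ᵥ x) / ℓ j₀ with hc
  have h1 : ℓ ⬝ᵥ (x - c • Pi.single j₀ 1) = 0 := by
    rw [dotProduct_sub, dotProduct_smul, dotProduct_single, mul_one, smul_eq_mul, hc,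
      div_mul_cancel₀ _ hj₀, sub_self]
  have h2 := h _ (by rw [hdot]; exact h1)
  rw [hdot, ← hM, Matrix.mulVec_sub, Matrix.mulVec_smul, dotProduct_sub, dotProduct_smul,
    smul_eq_mul, sub_eq_zero] at h2
  rw [h2, hc]
  field_simp

lemma acts_ev {B : Matrix (Fin n) (Fin n) ℤ} {ℓ : Fin n → ℝ} {β : ℝ} (h : Acts B ℓ β)
    (x : Fin n → ℚ) : ev ℓ ((B.map (Int.cast : ℤ → ℚ)).mulVec x) = β * ev ℓ x := by
  have h1 := h (fun j => (x j : ℝ))
  show ∑ j, ℓ j * (((B.map (Int.cast : ℤ → ℚ)).mulVec x j : ℚ) : ℝ) = β * ∑ j, ℓ j * (x j : ℝ)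
  rw [← h1]
  refine Finset.sum_congr rfl fun j _ => ?_
  congr 1
  simp [Matrix.mulVec, dotProduct]

lemma acts_mem {B : Matrix (Fin n) (Fin n) ℤ} {ℓ : Fin n → ℝ} {β : ℝ} (h : Acts B ℓ β) :
    β ∈ mult ℓ := by
  rintro w ⟨x, rfl⟩
  exact ⟨_, acts_ev h x⟩

lemma acts_one (ℓ : Fin n → ℝ) : Acts 1 ℓ 1 := by
  intro x
  have : ((1 : Matrix (Fin n) (Fin n) ℤ).map (Int.cast : ℤ → ℝ)) = 1 :=
    Matrix.map_one _ Int.cast_zero Int.cast_one
  rw [this, Matrix.one_mulVec, one_mul]

lemma acts_mul {B C : Matrix (Fin n) (Fin n) ℤ} {ℓ : Fin n → ℝ} {β γ : ℝ} (hB : Acts B ℓ β)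
    (hC : Acts C ℓ γ) : Acts (B * C) ℓ (β * γ) := by
  intro x
  have : (B * C).map (Int.cast : ℤ → ℝ) = B.map (Int.cast : ℤ → ℝ) * C.map (Int.cast : ℤ → ℝ) :=
    Matrix.map_mul (f := Int.castRingHom ℝ)
  rw [this, ← Matrix.mulVec_mulVec, hB, hC, mul_assoc]

lemma acts_pow {B : Matrix (Fin n) (Fin n) ℤ} {ℓ : Fin n → ℝ} {β : ℝ} (hB : Acts B ℓ β) (k : ℕ) :
    Acts (B ^ k) ℓ (β ^ k) := by
  induction k with
  | zero => rw [pow_zero, pow_zero]; exact acts_one ℓ
  | succ k ih => rw [pow_succ, pow_succ]; exact acts_mul ih hB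

lemma acts_sum {ι : Type} [Fintype ι] {B : ι → Matrix (Fin n) (Fin n) ℤ} {ℓ : Fin n → ℝ}
    {β : ι → ℝ} (hB : ∀ k, Acts (B k) ℓ (β k)) (c : ι → ℤ) :
    Acts (∑ k, c k • B k) ℓ (∑ k, (c k : ℝ) * β k) := by
  intro x
  have h1 : (∑ k, c k • B k).map (Int.cast : ℤ → ℝ) =
      ∑ k, (c k : ℝ) • (B k).map (Int.cast : ℤ → ℝ) := by
    ext i j
    simp only [Matrix.map_apply, Matrix.sum_apply, Matrix.smul_apply, smul_eq_mul, Int.cast_sum,
      Int.cast_mul]
  rw [h1, Finset.sum_mul]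
  have h2 : ∀ j, ((∑ k, (c k : ℝ) • (B k).map (Int.cast : ℤ → ℝ)).mulVec x) j =
      ∑ k, (c k : ℝ) * ((B k).map (Int.cast : ℤ → ℝ)).mulVec x j := by
    intro j
    rw [Matrix.sum_mulVec, Finset.sum_apply]
    refine Finset.sum_congr rfl fun k _ => ?_
    rw [Matrix.smul_mulVec]
    rfl
  simp_rw [h2, Finset.mul_sum]
  rw [Finset.sum_comm]
  refine Finset.sum_congr rfl fun k _ => ?_
  have h3 := hB k x
  rw [← Finset.mul_sum, mul_assoc, ← h3, Finset.mul_sum]
  exact Finset.sum_congr rfl fun j _ => by ring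

/-- A matrix which acts as zero on an injective form is zero. -/
lemma eq_zero_of_acts {B : Matrix (Fin n) (Fin n) ℤ} {ℓ : Fin n → ℝ}
    (hinj : Function.Injective (ev ℓ)) (h : Acts B ℓ 0) : B = 0 := by
  have h1 : ∀ x : Fin n → ℚ, (B.map (Int.cast : ℤ → ℚ)).mulVec x = 0 := by
    intro x
    apply hinj
    rw [acts_ev h x, zero_mul, map_zero]
  ext i j
  have h2 := congrFun (h1 (Pi.single j 1)) i
  simp only [Matrix.mulVec_single_one, Matrix.col_apply, Matrix.map_apply, Pi.zero_apply,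
    Int.cast_eq_zero] at h2
  exact h2

/-- independent matrices have independent multipliers -/
lemma card_le {ℓ : Fin n → ℝ} (hne : ℓ ≠ 0) (hinj : Function.Injective (ev ℓ)) {m : ℕ}
    {B : Fin m → Matrix (Fin n) (Fin n) ℤ} (hB : LinearIndependent ℤ B)
    (hK : ∀ k, Keeps (B k) ℓ) : m ≤ Module.finrank ℚ (mult ℓ) := by
  choose β hβ using fun k => exists_acts hne (hK k)
  have hfin := finite_mult hne
  have h1 : LinearIndependent ℤ β := by
    rw [Fintype.linearIndependent_iff] at hB ⊢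
    intro c hc k
    refine hB c ?_ k
    refine eq_zero_of_acts hinj ?_
    have h2 := acts_sum hβ c
    have h3 : ∑ k, (c k : ℝ) * β k = 0 := by
      rw [← hc]
      exact Finset.sum_congr rfl fun k _ => by rw [zsmul_eq_mul]
    rwa [h3] at h2
  have h2 : LinearIndependent ℚ β := (LinearIndependent.iff_fractionRing ℤ ℚ).1 h1
  have h3 : LinearIndependent ℚ (fun k => (⟨β k, acts_mem (hβ k)⟩ : mult ℓ)) := by
    refine LinearIndependent.of_comp (IntermediateField.val (mult ℓ)).toLinearMap ?_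
    exact h2
  have h4 := h3.fintype_card_le_finrank
  rwa [Fintype.card_fin] at h4

/-- the multiplier of a matrix with irreducible characteristic polynomial has degree `n` -/
lemma minpoly_acts {ℓ : Fin n → ℝ} (hne : ℓ ≠ 0) {B : Matrix (Fin n) (Fin n) ℤ} {β : ℝ}
    (hB : Acts B ℓ β) (hirr : Irreducible (B.charpoly.map (Int.castRingHom ℚ))) :
    minpoly ℚ β = B.charpoly.map (Int.castRingHom ℚ) := by
  have hroot : Polynomial.aeval β B.charpoly = 0 := by
    obtain ⟨j₀, hj₀⟩ := exists_ne hne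
    have h1 : Acts (Polynomial.aeval B B.charpoly) ℓ (Polynomial.aeval β B.charpoly) := by
      rw [Polynomial.aeval_eq_sum_range, Polynomial.aeval_eq_sum_range,
        ← Fin.sum_univ_eq_sum_range (fun i => B.charpoly.coeff i • B ^ i),
        ← Fin.sum_univ_eq_sum_range (fun i => B.charpoly.coeff i • β ^ i)]
      have h2 := acts_sum (fun k : Fin (B.charpoly.natDegree + 1) => acts_pow hB (k : ℕ))
        (fun k => B.charpoly.coeff k)
      simpa [zsmul_eq_mul] using h2
    rw [Matrix.aeval_self_charpoly] at h1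
    have h2 := h1 (Pi.single j₀ 1)
    have h3 : ∑ j, ℓ j * (Pi.single j₀ (1 : ℝ) : Fin n → ℝ) j = ℓ j₀ := by
      show ℓ ⬝ᵥ Pi.single j₀ 1 = ℓ j₀
      rw [dotProduct_single, mul_one]
    rw [h3] at h2
    have h4 : ((0 : Matrix (Fin n) (Fin n) ℤ).map (Int.cast : ℤ → ℝ)) = 0 := by
      ext i j; simp
    rw [h4, Matrix.zero_mulVec] at h2
    simp only [Pi.zero_apply, mul_zero, Finset.sum_const_zero] at h2
    exact (mul_eq_zero.1 h2.symm).resolve_right hj₀
  have hm : (B.charpoly.map (Int.castRingHom ℚ)).Monic := (Matrix.charpoly_monic B).map _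
  refine (minpoly.eq_of_irreducible_of_monic hirr ?_ hm).symm
  rw [← hroot]
  simp only [Polynomial.aeval_def, Polynomial.eval₂_map]
  rw [Subsingleton.elim ((algebraMap ℚ ℝ).comp (Int.castRingHom ℚ)) (algebraMap ℤ ℝ)]

lemma degree_acts {ℓ : Fin n → ℝ} (hne : ℓ ≠ 0) {B : Matrix (Fin n) (Fin n) ℤ} {β : ℝ}
    (hB : Acts B ℓ β) (hirr : Irreducible (B.charpoly.map (Int.castRingHom ℚ))) :
    (minpoly ℚ β).natDegree = n := by
  rw [minpoly_acts hne hB hirr, (Matrix.charpoly_monic B).natDegree_map,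
    Matrix.charpoly_natDegree_eq_dim, Fintype.card_fin]

lemma le_finrank {ℓ : Fin n → ℝ} (hne : ℓ ≠ 0) {B : Matrix (Fin n) (Fin n) ℤ}
    (hK : Keeps B ℓ) (hirr : Irreducible (B.charpoly.map (Int.castRingHom ℚ))) :
    n ≤ Module.finrank ℚ (mult ℓ) := by
  obtain ⟨β, hβ⟩ := exists_acts hne hK
  have hfin := finite_mult hne
  have hd := degree_acts hne hβ hirr
  have h1 := linearIndependent_pow (K := ℚ) β
  rw [hd] at h1
  have h2 : LinearIndependent ℚ
      (fun k : Fin n => (⟨β ^ (k : ℕ), acts_mem (acts_pow hβ k)⟩ : mult ℓ)) :=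
    LinearIndependent.of_comp (IntermediateField.val (mult ℓ)).toLinearMap h1
  have h4 := h2.fintype_card_le_finrank
  rwa [Fintype.card_fin] at h4

/-- the powers of a matrix with irreducible characteristic polynomial are independent -/
lemma powers {ℓ : Fin n → ℝ} (hne : ℓ ≠ 0) {B : Matrix (Fin n) (Fin n) ℤ} (hK : Keeps B ℓ)
    (hirr : Irreducible (B.charpoly.map (Int.castRingHom ℚ))) :
    LinearIndependent ℤ (fun k : Fin n => B ^ (k : ℕ)) ∧ ∀ k : Fin n, Keeps (B ^ (k : ℕ)) ℓ := by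
  obtain ⟨β, hβ⟩ := exists_acts hne hK
  obtain ⟨j₀, hj₀⟩ := exists_ne hne
  refine ⟨?_, fun k x hx => ?_⟩
  · have hd := degree_acts hne hβ hirr
    have h1 := linearIndependent_pow (K := ℚ) β
    rw [hd] at h1
    have h2 : LinearIndependent ℤ (fun k : Fin n => β ^ (k : ℕ)) :=
      (LinearIndependent.iff_fractionRing ℤ ℚ).2 h1
    rw [Fintype.linearIndependent_iff] at h2 ⊢
    intro c hc k
    refine h2 c ?_ k
    have h3 := acts_sum (fun k : Fin n => acts_pow hβ (k : ℕ)) c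
    rw [hc] at h3
    have h4 := h3 (Pi.single j₀ 1)
    have h5 : ∑ j, ℓ j * (Pi.single j₀ (1 : ℝ) : Fin n → ℝ) j = ℓ j₀ := by
      show ℓ ⬝ᵥ Pi.single j₀ 1 = ℓ j₀
      rw [dotProduct_single, mul_one]
    rw [h5] at h4
    have h6 : ((0 : Matrix (Fin n) (Fin n) ℤ).map (Int.cast : ℤ → ℝ)) = 0 := by
      ext i j; simp
    rw [h6, Matrix.zero_mulVec] at h4
    simp only [Pi.zero_apply, mul_zero, Finset.sum_const_zero] at h4
    have h7 := (mul_eq_zero.1 h4.symm).resolve_right hj₀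
    rw [← h7]
    exact Finset.sum_congr rfl fun k _ => by rw [zsmul_eq_mul]
  · rw [acts_pow hβ k x, hx, mul_zero]

/-! ### The limits -/

lemma bounded_limit {L L' : Fin n → Fin n → ℝ} {ν : ℝ} (hF : ∀ p : Fin n → ℤ, p ≠ 0 → ν ≤ |F L p|)
    (hL' : L' ∈ Limits L) : ∀ p : Fin n → ℤ, p ≠ 0 → ν ≤ |F L' p| := by
  intro p hp
  have hclosed : IsClosed {M : Fin n → Fin n → ℝ | ν ≤ |F M p|} := by
    refine isClosed_le continuous_const ?_
    unfold F
    fun_prop
  refine closure_minimal ?_ hclosed hL'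
  rintro M ⟨a, γ, ha, ha1, hγ, hM⟩
  have h1 : F M p = F L (γ.mulVec p) := by
    unfold F
    have h2 : ∀ i, ∑ j, M i j * (p j : ℝ) = a i * ∑ k, L i k * ((γ.mulVec p k : ℤ) : ℝ) := by
      intro i
      simp_rw [hM]
      simp only [Matrix.mulVec, dotProduct, Int.cast_sum, Int.cast_mul, Finset.mul_sum,
        Finset.sum_mul]
      rw [Finset.sum_comm]
      exact Finset.sum_congr rfl fun k _ => Finset.sum_congr rfl fun j _ => by ring
    simp_rw [h2]
    rw [Finset.prod_mul_distrib, ha1, one_mul]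
  show ν ≤ |F M p|
  rw [h1]
  refine hF _ fun h0 => hp ?_
  have hdet : IsUnit γ.det := Int.isUnit_iff_abs_eq.2 hγ
  have h3 : γ⁻¹.mulVec (γ.mulVec p) = p := by
    rw [Matrix.mulVec_mulVec, Matrix.nonsing_inv_mul _ hdet, Matrix.one_mulVec]
  rw [← h3, h0, Matrix.mulVec_zero]

lemma inj_of_bounded {L : Fin n → Fin n → ℝ} {ν : ℝ} (hν : 0 < ν)
    (hF : ∀ p : Fin n → ℤ, p ≠ 0 → ν ≤ |F L p|) (i : Fin n) : Function.Injective (ev (L i)) := by
  rw [← LinearMap.ker_eq_bot, LinearMap.ker_eq_bot']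
  intro x hx
  by_contra hne
  -- clear denominators
  obtain ⟨N, hN, p, hp⟩ : ∃ N : ℕ, N ≠ 0 ∧ ∃ p : Fin n → ℤ, ∀ j, (p j : ℚ) = N * x j := by
    refine ⟨∏ j, (x j).den, Finset.prod_ne_zero_iff.2 fun j _ => (x j).den_nz,
      fun j => (x j).num * ∏ k ∈ Finset.univ.erase j, ((x k).den : ℤ), fun j => ?_⟩
    rw [← Finset.mul_prod_erase Finset.univ (fun j => (x j).den) (Finset.mem_univ j)]
    push_cast
    have h1 : (x j).den * x j = ((x j).num : ℚ) := Rat.den_mul_eq_num (x j)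
    rw [← h1]
    ring
  have hp0 : p ≠ 0 := by
    intro h0
    apply hne
    funext j
    have h1 := hp j
    rw [h0] at h1
    simp only [Pi.zero_apply, Int.cast_zero] at h1
    exact (mul_eq_zero.1 h1.symm).resolve_left (by exact_mod_cast hN)
  have h2 := hF p hp0
  have h3 : F L p = 0 := by
    unfold F
    refine Finset.prod_eq_zero (Finset.mem_univ i) ?_
    have h4 : ∑ j, L i j * (p j : ℝ) = N * ev (L i) x := by
      show _ = (N : ℝ) * ∑ j, L i j * (x j : ℝ)
      rw [Finset.mul_sum]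
      refine Finset.sum_congr rfl fun j _ => ?_
      have h5 : ((p j : ℚ) : ℝ) = ((N * x j : ℚ) : ℝ) := by rw [hp j]
      push_cast at h5
      rw [h5]
      ring
    rw [h4, hx, mul_zero]
  rw [h3, abs_zero] at h2
  linarith

/-- If the multipliers of one form of one limit have degree `n` then there is a matrix. -/
lemma hasMatrix_of (hn : 3 ≤ n) {L : Fin n → Fin n → ℝ} (hL : LinearIndependent ℝ L)
    (hB : BoundedAway L) {L' : Fin n → Fin n → ℝ} (hL' : L' ∈ Limits L) (i : Fin n)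
    (hne : L' i ≠ 0) (hinj : Function.Injective (ev (L' i)))
    (hK : Module.finrank ℚ (mult (L' i)) = n) : HasMatrix L := by
  obtain ⟨s, hs, hmem⟩ := exists_scale hne hinj hK
  obtain ⟨u, hu, hlim⟩ := mem_closure_iff_seq_limit.1 hL'
  choose a γ ha ha1 hγ hu2 using hu
  have hfin := finite_mult hne
  have hlim2 : Tendsto (fun n => Matrix.diagonal (a n) * Matrix.of L *
      (γ n).map (Int.cast : ℤ → ℝ)) atTop (𝓝 (Matrix.of L')) := by
    refine hlim.congr fun m => ?_
    funext i j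
    rw [hu2, Matrix.mul_apply]
    simp only [Matrix.diagonal_mul, Matrix.map_apply, Matrix.of_apply, Finset.mul_sum]
    exact Finset.sum_congr rfl fun k _ => by ring
  have hd := Pool.Agent.H905R2.Opp.det_ne hL
  rcases H715R2.limit_alg' hn hd a γ (fun m => by rw [ha1, abs_one]) hγ hlim2 i s hs
    (mult (L' i)) hK.le (fun j => hmem j) with h1 | ⟨h1, -⟩
  · exact Pool.Agent.H905R2.Opp.opp_of_propInt (by omega) hL hB h1
  · obtain ⟨ν, hν, hF⟩ := hB
    obtain ⟨x, hx, hx2⟩ := h1 ν hν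
    exact absurd (hF x hx) (not_le.2 hx2)

lemma self_mem (L : Fin n → Fin n → ℝ) : L ∈ Limits L := by
  refine subset_closure ⟨fun _ => 1, 1, fun _ => one_pos, by simp, by simp, fun i j => ?_⟩
  simp [Matrix.one_apply]

lemma row_ne {L : Fin n → Fin n → ℝ} {ν : ℝ} (hν : 0 < ν)
    (hF : ∀ p : Fin n → ℤ, p ≠ 0 → ν ≤ |F L p|) (i : Fin n) : L i ≠ 0 := by
  intro h0
  have h1 : ν ≤ |F L (Pi.single i 1)| := hF _ (by
    intro h
    have := congrFun h i
    simp at this)
  have h2 : F L (Pi.single i 1) = 0 := by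
    unfold F
    refine Finset.prod_eq_zero (Finset.mem_univ i) ?_
    rw [h0]; simp
  rw [h2, abs_zero] at h1
  linarith

theorem result (n : ℕ) (hn : 3 ≤ n) (L : Fin n → Fin n → ℝ) (hL : LinearIndependent ℝ L)
    (hB : BoundedAway L) :
    -- many integral matrices keep one hyperplane of one limit
    (HasMatrix L ↔ ∃ L' ∈ Limits L, ∃ (i : Fin n) (m : ℕ)
      (B : Fin m → Matrix (Fin n) (Fin n) ℤ), n < m * n.minFac ∧ LinearIndependent ℤ B ∧
        ∀ k, Keeps (B k) (L' i)) ∧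
    -- one irreducible integral matrix keeps one hyperplane of one limit
    (HasMatrix L ↔ ∃ L' ∈ Limits L, ∃ (i : Fin n) (B : Matrix (Fin n) (Fin n) ℤ),
      Irreducible (B.charpoly.map (Int.castRingHom ℚ)) ∧ Keeps B (L' i)) ∧
    -- prime dimensions: one matrix which is not scalar
    (n.Prime → (HasMatrix L ↔ ∃ L' ∈ Limits L, ∃ (i : Fin n) (B : Matrix (Fin n) (Fin n) ℤ),
      (∀ c : ℤ, B ≠ c • (1 : Matrix (Fin n) (Fin n) ℤ)) ∧ Keeps B (L' i))) := by
  obtain ⟨ν, hν, hF⟩ := hB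
  have hB : BoundedAway L := ⟨ν, hν, hF⟩
  have hp := Nat.minFac_prime (n := n) (by omega)
  -- the general criterion
  have key : ∀ L' ∈ Limits L, ∀ i : Fin n, n < Module.finrank ℚ (mult (L' i)) * n.minFac →
      HasMatrix L := by
    intro L' hL' i h1
    have hF' := bounded_limit hF hL'
    have hinj := inj_of_bounded hν hF' i
    have hne := row_ne hν hF' i
    obtain ⟨q, hq⟩ := finrank_dvd hinj
    refine hasMatrix_of hn hL hB hL' i hne hinj ?_
    have hq1 : q = 1 := by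
      by_contra hq1
      have hq0 : q ≠ 0 := by rintro rfl; omega
      have h2 : n.minFac ≤ q := Nat.minFac_le_of_dvd (by omega) ⟨_, by rw [mul_comm]; exact hq⟩
      have h3 : Module.finrank ℚ (mult (L' i)) * n.minFac ≤ n := by
        conv_rhs => rw [hq]
        exact Nat.mul_le_mul_left _ h2
      omega
    rw [hq1, mul_one] at hq
    exact hq.symm
  have k2 : (∃ L' ∈ Limits L, ∃ (i : Fin n) (m : ℕ)
      (B : Fin m → Matrix (Fin n) (Fin n) ℤ), n < m * n.minFac ∧ LinearIndependent ℤ B ∧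
        ∀ k, Keeps (B k) (L' i)) → HasMatrix L := by
    rintro ⟨L', hL', i, m, B, hm, hlin, hK⟩
    have hF' := bounded_limit hF hL'
    have h1 := card_le (row_ne hν hF' i) (inj_of_bounded hν hF' i) hlin hK
    exact key L' hL' i (lt_of_lt_of_le hm (Nat.mul_le_mul_right _ h1))
  have i0 : Fin n := ⟨0, by omega⟩
  refine ⟨⟨?_, k2⟩, ⟨?_, ?_⟩, fun hprime => ⟨?_, ?_⟩⟩
  · rintro ⟨A, -, hirr, -, hK⟩
    obtain ⟨h1, h2⟩ := powers (row_ne hν hF i0) (hK i0) hirr
    refine ⟨L, self_mem L, i0, n, _, ?_, h1, h2⟩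
    have := hp.two_le
    nlinarith
  · rintro ⟨A, -, hirr, -, hK⟩
    exact ⟨L, self_mem L, i0, A, hirr, hK i0⟩
  · rintro ⟨L', hL', i, B, hirr, hK⟩
    have hF' := bounded_limit hF hL'
    have h1 := le_finrank (row_ne hν hF' i) hK hirr
    refine key L' hL' i ?_
    have := hp.two_le
    nlinarith
  · rintro ⟨A, -, hirr, -, hK⟩
    refine ⟨L, self_mem L, i0, A, ?_, hK i0⟩
    intro c hc
    obtain ⟨h1, -⟩ := powers (row_ne hν hF i0) (hK i0) hirr
    rw [Fintype.linearIndependent_iff] at h1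
    have h3 := h1 (fun k => if (k : ℕ) = 0 then -c else if (k : ℕ) = 1 then 1 else 0) ?_
      ⟨1, by omega⟩
    · simp at h3
    · have h4 : ∑ k : Fin n, (if (k : ℕ) = 0 then -c else if (k : ℕ) = 1 then 1 else 0) •
          A ^ (k : ℕ) = -c • (1 : Matrix (Fin n) (Fin n) ℤ) + A := by
        obtain ⟨m, rfl⟩ : ∃ m, n = m + 2 := ⟨n - 2, by omega⟩
        rw [Fin.sum_univ_succ, Fin.sum_univ_succ, Finset.sum_eq_zero]
        · simp
        · intro k _
          simp
      rw [h4, hc]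
      simp
  · rintro ⟨L', hL', i, B, hsc, hK⟩
    refine k2 ⟨L', hL', i, 2, ![1, B], ?_, ?_, ?_⟩
    · rw [hprime.minFac_eq]; omega
    · rw [LinearIndependent.pair_iff]
      intro s t hst
      have ht : t = 0 := by
        by_contra ht
        have hoff : ∀ a b : Fin n, a ≠ b → B a b = 0 := by
          intro a b hab
          have h1 := congrFun (congrFun hst a) b
          simp only [Matrix.add_apply, Matrix.smul_apply, Matrix.one_apply_ne hab, smul_eq_mul,
            mul_zero, zero_add, Matrix.zero_apply] at h1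
          exact (mul_eq_zero.1 h1).resolve_left ht
        have hdiag : ∀ a : Fin n, B a a = B i0 i0 := by
          intro a
          have h1 := congrFun (congrFun hst a) a
          have h2 := congrFun (congrFun hst i0) i0
          simp only [Matrix.add_apply, Matrix.smul_apply, Matrix.one_apply_eq, smul_eq_mul,
            mul_one, Matrix.zero_apply] at h1 h2
          have h3 : t * B a a = t * B i0 i0 := by linarith
          exact mul_left_cancel₀ ht h3
        apply hsc (B i0 i0)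
        ext a b
        rcases eq_or_ne a b with rfl | hab
        · simp [hdiag a]
        · simp [hoff a b hab, Matrix.one_apply_ne hab]
      subst ht
      refine ⟨?_, rfl⟩
      have h1 := congrFun (congrFun hst i0) i0
      simp only [Matrix.add_apply, Matrix.smul_apply, Matrix.one_apply_eq, smul_eq_mul, mul_one,
        zero_mul, add_zero, Matrix.zero_apply] at h1
      exact h1
    · intro k
      fin_cases k
      · intro x hx
        have h1 := acts_one (L' i) x
        simpa [hx] using h1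
      · exact hK

end Pool.Agent.Results.MP_77d073_nt.OneHyperplane
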