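import Mathlib
import Pool.Agent.Q208.MT.Common

/-! # MP_77d073_nt: one invariant plane, one common factor

Let `n ≥ 3`, and let `L` be a system of `n` independent linear forms whose product is bounded away
from zero at the nonzero integer points. Call an integer matrix `A` admissible if its characteristic
polynomial is irreducible, or if `n` is prime and `A` is not a multiple of the identity.

1. If an admissible `A` leaves one of the hyperplanes `L i = 0` invariant, then it leaves all of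
   them invariant, its characteristic polynomial is irreducible with real roots only, and `L`
   satisfies Oppenheim's conclusion.
2. If an admissible `A` leaves one hyperplane `L' i = 0` of a limit `L'` of the systems
   `a i • (L i ∘ γ)` invariant, then `L` satisfies Oppenheim's conclusion.
3. If `L` satisfies Oppenheim's conclusion and `L'` is another system with product bounded away from
   zero, and one form of `L'` is proportional to a form of `L`, then `L'` is obtained from `L` by a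
   permutation and multiplication with constants.
4. Oppenheim's conjecture in dimension `n` is equivalent to each of the following statements about
   the systems with product bounded away from zero. (a) Two systems with a common factor (up to
   constants) have all factors in common. (b) Two systems with `n - 1` common factors have all
   factors in common. (c) For every `L` some admissible matrix leaves some hyperplane of some limit
   of `L` invariant. -/

set_option autoImplicit false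

open Filter Topology

namespace Pool.Agent.Results.MP_77d073_nt.OneInvariantPlane

variable {n : ℕ}

/-- the product of the linear forms with the coefficients `L i`, at an integer point -/
noncomputable def F (L : Fin n → Fin n → ℝ) (p : Fin n → ℤ) : ℝ :=
  ∏ i : Fin n, ∑ j : Fin n, L i j * (p j : ℝ)

/-- The forms are independent, and the product is bounded away from zero at the nonzero integer
points. -/
def BoundedAway (L : Fin n → Fin n → ℝ) : Prop :=
  LinearIndependent ℝ L ∧ ∃ ν : ℝ, 0 < ν ∧ ∀ p : Fin n → ℤ, p ≠ 0 → ν ≤ |F L p|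

/-- The matrix `A` leaves the hyperplane of the zeros of the form `r` invariant. -/
def Invariant (A : Matrix (Fin n) (Fin n) ℤ) (r : Fin n → ℝ) : Prop :=
  ∀ x : Fin n → ℝ, ∑ j, r j * x j = 0 →
    ∑ j, r j * ((A.map (Int.cast : ℤ → ℝ)).mulVec x) j = 0

/-- all eigenvalues are real -/
def RealEigenvalues (A : Matrix (Fin n) (Fin n) ℤ) : Prop :=
  ∀ z : ℂ, Polynomial.aeval z A.charpoly = 0 → z.im = 0

/-- irreducible characteristic polynomial -/
def Irred (A : Matrix (Fin n) (Fin n) ℤ) : Prop :=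
  Irreducible (A.charpoly.map (Int.castRingHom ℚ))

/-- Oppenheim's conclusion: there is an irreducible RS-matrix whose invariant planes are the
hyperplanes `L i = 0`. -/
def HasMatrix (L : Fin n → Fin n → ℝ) : Prop :=
  ∃ A : Matrix (Fin n) (Fin n) ℤ, A.det = 1 ∧ Irred A ∧ RealEigenvalues A ∧
    ∀ i : Fin n, Invariant A (L i)

/-- Oppenheim's conjecture in dimension `n` -/
def Oppenheim (n : ℕ) : Prop := ∀ L : Fin n → Fin n → ℝ, BoundedAway L → HasMatrix L

/-- irreducible, or only not a multiple of the identity if `n` is prime -/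
def Admissible (A : Matrix (Fin n) (Fin n) ℤ) : Prop :=
  Irred A ∨ (n.Prime ∧ ∀ z : ℤ, A ≠ z • (1 : Matrix (Fin n) (Fin n) ℤ))

/-- The limits of the systems `a i • (L i ∘ γ)`, `a` positive of product one, `γ` integral of
determinant `±1`. -/
def Limits (L : Fin n → Fin n → ℝ) : Set (Fin n → Fin n → ℝ) :=
  closure {L' | ∃ (a : Fin n → ℝ) (γ : Matrix (Fin n) (Fin n) ℤ), (∀ i, 0 < a i) ∧
    ∏ i, a i = 1 ∧ |γ.det| = 1 ∧ ∀ i j, L' i j = a i * ∑ k, L i k * (γ k j : ℝ)}

/-- the same factors up to order and constants -/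
def SameFactors (L L' : Fin n → Fin n → ℝ) : Prop :=
  ∃ (σ : Equiv.Perm (Fin n)) (a : Fin n → ℝ), ∀ k, L' k = a k • L (σ k)

lemma limits_eq (L : Fin n → Fin n → ℝ) (L' : Fin n → Fin n → ℝ) :
    L' ∈ Limits L ↔ Matrix.of L' ∈ closure (H715R2.Orb (Matrix.of L)) := by
  have h1 : {L' : Fin n → Fin n → ℝ | ∃ (a : Fin n → ℝ) (γ : Matrix (Fin n) (Fin n) ℤ),
      (∀ i, 0 < a i) ∧ ∏ i, a i = 1 ∧ |γ.det| = 1 ∧
      ∀ i j, L' i j = a i * ∑ k, L i k * (γ k j : ℝ)} =
      (H715R2.Orb (Matrix.of L) : Set (Fin n → Fin n → ℝ)) := by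
    ext h
    constructor
    · rintro ⟨a, γ, ha0, ha1, hγ, hh⟩
      refine ⟨a, γ, ha0, ha1, Int.isUnit_iff_abs_eq.2 hγ, ?_⟩
      funext i j
      rw [hh, Matrix.mul_assoc, Matrix.diagonal_mul, Matrix.mul_apply]
      rfl
    · rintro ⟨a, γ, ha0, ha1, hγ, hh⟩
      refine ⟨a, γ, ha0, ha1, Int.isUnit_iff_abs_eq.1 hγ, fun i j => ?_⟩
      rw [hh, Matrix.mul_assoc, Matrix.diagonal_mul, Matrix.mul_apply]
      rfl
  unfold Limits
  rw [h1]
  rfl

lemma indep_of_det {L : Fin n → Fin n → ℝ} (h : (Matrix.of L).det ≠ 0) :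
    LinearIndependent ℝ L := by
  have h1 : IsUnit (Matrix.of L) :=
    (Matrix.isUnit_iff_isUnit_det _).2 (isUnit_iff_ne_zero.2 h)
  exact Matrix.linearIndependent_rows_iff_isUnit.2 h1

lemma hasMatrix_of (hn : 3 ≤ n) {L : Fin n → Fin n → ℝ} (hL : BoundedAway L)
    (hP : H715R2.PropInt (Matrix.of L)) : HasMatrix L :=
  Pool.Agent.H905R2.Opp.opp_of_propInt (by omega) hL.1 hL.2 hP

lemma row_indep {L : Fin n → Fin n → ℝ} {ν : ℝ} (hν : 0 < ν)
    (hF : H715R2.HasNu (Matrix.of L) ν) (i : Fin n) (m : Fin n → ℤ)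
    (hm : ∑ j, L i j * (m j : ℝ) = 0) : m = 0 := by
  by_contra hm0
  have h1 := hF m hm0
  rw [H715R2.FF_eq, Finset.prod_eq_zero (Finset.mem_univ i) hm, abs_zero] at h1
  exact absurd h1 (not_le.2 hν)

lemma ne_zero_row (hn : 0 < n) {r : Fin n → ℝ}
    (h : ∀ m : Fin n → ℤ, ∑ j, r j * (m j : ℝ) = 0 → m = 0) : r ≠ 0 := by
  rintro rfl
  exact one_ne_zero (congrFun (h (fun _ => 1) (by simp)) ⟨0, hn⟩)

/-- the field of the eigenvalue of an admissible matrix -/
lemma admissible_field (hn : 3 ≤ n) {r : Fin n → ℝ}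
    (hr : ∀ m : Fin n → ℤ, ∑ j, r j * (m j : ℝ) = 0 → m = 0) {A : Matrix (Fin n) (Fin n) ℤ}
    (hA : Admissible A) (hinv : Invariant A r) :
    ∃ lam : ℝ, Matrix.vecMul r (H715R2.zR A) = lam • r ∧
      Module.finrank ℚ (IntermediateField.adjoin ℚ {lam}) = n := by
  have hr0 := ne_zero_row (by omega) hr
  obtain ⟨lam, hlam⟩ := Q208.MT.eigenrow hr0 (A := H715R2.zR A) hinv
  refine ⟨lam, hlam, ?_⟩
  rcases hA with h | ⟨hp, h⟩
  · exact Q208.MT.finrank_of_irreducible hr0 hlam h
  · exact Q208.MT.finrank_of_prime hp hr hlam h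

lemma part_one (hn : 3 ≤ n) {L : Fin n → Fin n → ℝ} (hL : BoundedAway L) (i : Fin n)
    {A : Matrix (Fin n) (Fin n) ℤ} (hA : Admissible A) (hinv : Invariant A (L i)) :
    Irred A ∧ RealEigenvalues A ∧ (∀ k, Invariant A (L k)) ∧ HasMatrix L := by
  obtain ⟨hind, ν, hν, hF⟩ := hL
  have hdet := Pool.Agent.H905R2.Opp.det_ne hind
  have hnu : H715R2.HasNu (Matrix.of L) ν := hF
  have hr := row_indep hν hnu i
  obtain ⟨lam, hlam, hK⟩ := admissible_field hn hr hA hinv
  obtain ⟨hP, mu, hmu⟩ := Q208.MT.all_rows hn hdet hν hnu i hlam hK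
  exact ⟨Q208.MT.irreducible_of_finrank (ne_zero_row (by omega) hr) hlam hK,
    Q208.MT.real_eigenvalues hdet hmu,
    fun k => Q208.MT.inv_of_eigenrow (Q208.MT.row_of_mul hmu k),
    hasMatrix_of hn ⟨hind, ν, hν, hF⟩ hP⟩

lemma part_two (hn : 3 ≤ n) {L : Fin n → Fin n → ℝ} (hL : BoundedAway L) {L' : Fin n → Fin n → ℝ}
    (hL' : L' ∈ Limits L) (i : Fin n) {A : Matrix (Fin n) (Fin n) ℤ} (hA : Admissible A)
    (hinv : Invariant A (L' i)) : HasMatrix L := by
  obtain ⟨hind, ν, hν, hF⟩ := hL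
  have hdet := Pool.Agent.H905R2.Opp.det_ne hind
  have hnu : H715R2.HasNu (Matrix.of L) ν := hF
  rw [limits_eq] at hL'
  have hr := row_indep hν (H715R2.hasNu_closure hnu hL') i
  obtain ⟨lam, hlam, hK⟩ := admissible_field hn hr hA hinv
  exact hasMatrix_of hn ⟨hind, ν, hν, hF⟩
    (Q208.MT.propInt_of_row hn hdet hν hnu hL' i hlam hK)

lemma part_three (hn : 3 ≤ n) {L L' : Fin n → Fin n → ℝ} (hL : BoundedAway L) (hL' : BoundedAway L')
    (hA : HasMatrix L) {i i' : Fin n} {c : ℝ} (hc : L' i' = c • L i) :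
    HasMatrix L' ∧ SameFactors L L' := by
  obtain ⟨A, -, hA1, -, hA2⟩ := hA
  obtain ⟨hind', ν', hν', hF'⟩ := hL'
  obtain ⟨hP, h⟩ := Q208.MT.common_factor hn (g := Matrix.of L) (g' := Matrix.of L')
    (Pool.Agent.H905R2.Opp.det_ne hL.1) (Pool.Agent.H905R2.Opp.det_ne hind') hν' hF' hA1 hA2
    (i := i) (i' := i') (c := c) hc
  exact ⟨hasMatrix_of hn ⟨hind', ν', hν', hF'⟩ hP, h⟩

lemma pair_indep {L : Fin n → Fin n → ℝ} (hL : LinearIndependent ℝ L) {i j : Fin n}
    (hij : i ≠ j) : LinearIndependent ℝ ![L i, L j] := by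
  have h1 : Function.Injective ![i, j] := by
    intro u v huv
    fin_cases u <;> fin_cases v <;> simp_all
  convert hL.comp ![i, j] h1 using 1
  funext u
  fin_cases u <;> rfl

/-- a failure gives two different systems with `n - 1` common factors -/
lemma part_four (hn : 3 ≤ n)
    (h : ∀ L L' : Fin n → Fin n → ℝ, BoundedAway L → BoundedAway L' → ∀ i : Fin n, (∀ k, k ≠ i → L' k = L k) →
      ∃ a : ℝ, L' i = a • L i) : Oppenheim n := by
  intro L hL
  by_contra hA
  obtain ⟨hind, ν, hν, hF⟩ := hL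
  have hdet := Pool.Agent.H905R2.Opp.det_ne hind
  have hP : ¬ H715R2.PropInt (Matrix.of L) := fun hP =>
    hA (hasMatrix_of hn ⟨hind, ν, hν, hF⟩ hP)
  obtain ⟨i, j, hij, h1, hh1, hh2⟩ := Q208.MT.exists_pair hn hdet hν hF hP
  obtain ⟨L₁, rfl⟩ : ∃ L₁ : Fin n → Fin n → ℝ, Matrix.of L₁ = h1 := ⟨h1, rfl⟩
  obtain ⟨L₂, hL₂⟩ : ∃ L₂ : Fin n → Fin n → ℝ,
      Matrix.of L₂ = Matrix.transvection i j 1 * Matrix.of L₁ := ⟨_, rfl⟩
  rw [← hL₂] at hh2
  have key : ∀ L₃ : Fin n → Fin n → ℝ, Matrix.of L₃ ∈ closure (H715R2.Orb (Matrix.of L)) →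
      BoundedAway L₃ := by
    intro L₃ hL₃
    have h0 : (Matrix.of L₃).det ≠ 0 := by
      rw [← abs_ne_zero, H715R2.abs_det_closure hL₃, abs_ne_zero]
      exact hdet
    exact ⟨indep_of_det h0, ν, hν, H715R2.hasNu_closure hF hL₃⟩
  have hk : ∀ k, k ≠ i → L₂ k = L₁ k := by
    intro k hk
    funext l
    have := congrFun (congrFun hL₂ k) l
    rw [Matrix.transvection_mul_apply_of_ne _ _ _ _ hk] at this
    exact this
  have hi : L₂ i = L₁ i + L₁ j := by
    funext l
    have := congrFun (congrFun hL₂ i) l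
    rw [Matrix.transvection_mul_apply_same, one_mul] at this
    exact this
  obtain ⟨a, ha⟩ := h L₁ L₂ (key L₁ hh1) (key L₂ hh2) i hk
  have hpair := pair_indep (key L₁ hh1).1 hij
  rw [LinearIndependent.pair_iff] at hpair
  have h3 := hpair (1 - a) 1 (by
    rw [hi] at ha
    rw [sub_smul, one_smul, one_smul, ← ha]
    abel)
  exact one_ne_zero h3.2

theorem result (n : ℕ) (hn : 3 ≤ n) :
    -- 1. one invariant hyperplane
    (∀ L : Fin n → Fin n → ℝ, BoundedAway L → ∀ (i : Fin n) (A : Matrix (Fin n) (Fin n) ℤ),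
      Admissible A → Invariant A (L i) →
        Irred A ∧ RealEigenvalues A ∧ (∀ k, Invariant A (L k)) ∧ HasMatrix L) ∧
    -- 2. one invariant hyperplane of a limit
    (∀ L : Fin n → Fin n → ℝ, BoundedAway L → ∀ L' ∈ Limits L,
      ∀ (i : Fin n) (A : Matrix (Fin n) (Fin n) ℤ), Admissible A → Invariant A (L' i) →
        HasMatrix L) ∧
    -- 3. one common factor
    (∀ L L' : Fin n → Fin n → ℝ, BoundedAway L → BoundedAway L' → HasMatrix L →
      ∀ (i i' : Fin n) (c : ℝ), L' i' = c • L i → HasMatrix L' ∧ SameFactors L L') ∧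
    -- 4. the conjecture
    (Oppenheim n ↔ ∀ L L' : Fin n → Fin n → ℝ, BoundedAway L → BoundedAway L' →
      ∀ (i i' : Fin n) (c : ℝ), L' i' = c • L i → SameFactors L L') ∧
    (Oppenheim n ↔ ∀ L L' : Fin n → Fin n → ℝ, BoundedAway L → BoundedAway L' → ∀ i : Fin n,
      (∀ k, k ≠ i → L' k = L k) → ∃ a : ℝ, L' i = a • L i) ∧
    (Oppenheim n ↔ ∀ L : Fin n → Fin n → ℝ, BoundedAway L → ∃ L' ∈ Limits L, ∃ (i : Fin n)
      (A : Matrix (Fin n) (Fin n) ℤ), Admissible A ∧ Invariant A (L' i)) := by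
  have h4 : (∀ L L' : Fin n → Fin n → ℝ, BoundedAway L → BoundedAway L' →
      ∀ (i i' : Fin n) (c : ℝ), L' i' = c • L i → SameFactors L L') →
      ∀ L L' : Fin n → Fin n → ℝ, BoundedAway L → BoundedAway L' → ∀ i : Fin n,
        (∀ k, k ≠ i → L' k = L k) → ∃ a : ℝ, L' i = a • L i := by
    intro h L L' hL hL' i hk
    obtain ⟨k₀, hk₀⟩ : ∃ k₀ : Fin n, k₀ ≠ i := by
      have : Nontrivial (Fin n) := Fin.nontrivial_iff_two_le.2 (by omega)
      exact exists_ne i
    obtain ⟨σ, a, hσ⟩ := h L L' hL hL' k₀ k₀ 1 (by rw [hk k₀ hk₀, one_smul])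
    -- `σ` fixes all `k ≠ i`
    have hfix : ∀ k, k ≠ i → σ k = k := by
      intro k hki
      by_contra hne
      have h1 : L k = a k • L (σ k) := by rw [← hk k hki]; exact hσ k
      have hpair := pair_indep hL.1 (Ne.symm hne)
      rw [LinearIndependent.pair_iff] at hpair
      have h3 := hpair 1 (-a k) (by rw [one_smul, neg_smul, ← h1, add_neg_cancel])
      exact one_ne_zero h3.1
    have hi : σ i = i := by
      by_contra hne
      exact hne (σ.injective (hfix (σ i) hne))
    exact ⟨a i, by rw [hσ i, hi]⟩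
  refine ⟨fun L hL i A hA hinv => part_one hn hL i hA hinv,
    fun L hL L' hL' i A hA hinv => part_two hn hL hL' i hA hinv,
    fun L L' hL hL' hA i i' c hc => part_three hn hL hL' hA hc,
    ⟨fun hO L L' hL hL' i i' c hc => (part_three hn hL hL' (hO L hL) hc).2,
      fun h => part_four hn (h4 h)⟩,
    ⟨fun hO => h4 fun L L' hL hL' i i' c hc => (part_three hn hL hL' (hO L hL) hc).2,
      part_four hn⟩,
    ⟨fun hO L hL => ?_, fun h L hL => ?_⟩⟩
  · obtain ⟨A, -, hA1, -, hA2⟩ := hO L hL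
    exact ⟨L, (limits_eq L L).2 (subset_closure (H715R2.mem_orb_self _)), ⟨0, by omega⟩, A,
      Or.inl hA1, hA2 _⟩
  · obtain ⟨L', hL', i, A, hA, hinv⟩ := h L hL
    exact part_two hn hL hL' i hA hinv

end Pool.Agent.Results.MP_77d073_nt.OneInvariantPlane
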