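import Mathlib
import Pool.Agent.Q34.CSD.ProjCount
import Pool.Agent.Y327.Full
import Pool.Agent.TH314.CSD.Scales

/-! # MP_77d073_nt: the entries of the projections onto the edges along the planes

Let `n ≥ 3` and let `L 1, ..., L n` be independent linear forms on `ℝ ^ n`. The `n` planes
`L i = 0` have `n` edges, spanned by the points `e i` with `L k (e i) = δ_(k i)`, and the projection
onto the edge of `e i` along the plane `L i = 0` is `p ↦ L i (p) e i`. For an integer point `x` and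
an integer covector `y` (a linear form `⟨y, ·⟩` with integer coefficients) we consider the vector
`(L i (x) ⟨y, e i⟩)_i`, the entries of the `n` projections at `(x, y)`, whose sum is `⟨y, x⟩`,
together with the product `∏ L i (x)`. A set is called `N`-thin if it is covered by countably many
C¹ submanifolds of dimension at most `N`.

Let `p` be the smallest prime factor of `n`, and let `N < n - n / p`, or let `n` be odd and
`N ≤ n - n / p` (so for a prime `n` the numbers `N < n` are allowed; the vectors lie in a hyperplane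
of dimension `n`).

1. Let `L` be a counterexample to Oppenheim's conjecture and let `L₀` be recurrent among its limits.
   For all nonzero `x` and `y` and for every nonempty relatively open set of limits of `L₀` the
   vectors at `(x, y)` of these limits do not form an `N`-thin set.
2. Let the product of the `L i` be bounded away from zero at the nonzero integer points, and let `x`
   and `y` be nonzero. There is an irreducible RS-matrix whose invariant planes are the planes
   `L i = 0` if and only if the closure of the set of vectors of `L` at the images of `(x, y)` under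
   the unimodular matrices is countable, and if and only if it is `N`-thin. -/

set_option autoImplicit false

open Filter Topology

namespace Pool.Agent.Results.MP_77d073_nt.ProjectionEntries

variable {n : ℕ}

/-- the linear form `L i` at an integer point -/
noncomputable def form (L : Fin n → Fin n → ℝ) (i : Fin n) (x : Fin n → ℤ) : ℝ :=
  ∑ j : Fin n, L i j * (x j : ℝ)

/-- the product of the linear forms, at an integer point -/
noncomputable def F (L : Fin n → Fin n → ℝ) (x : Fin n → ℤ) : ℝ :=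
  ∏ i : Fin n, form L i x

/-- the product is bounded away from zero at the nonzero integer points -/
def BoundedAway (L : Fin n → Fin n → ℝ) : Prop :=
  ∃ ν : ℝ, 0 < ν ∧ ∀ p : Fin n → ℤ, p ≠ 0 → ν ≤ |F L p|

/-- Oppenheim's conclusion: there is an irreducible RS-matrix whose invariant planes are the
hyperplanes `L i = 0`. -/
def HasMatrix (L : Fin n → Fin n → ℝ) : Prop :=
  ∃ A : Matrix (Fin n) (Fin n) ℤ,
    A.det = 1 ∧
    Irreducible (A.charpoly.map (Int.castRingHom ℚ)) ∧
    (∀ z : ℂ, Polynomial.aeval z A.charpoly = 0 → z.im = 0) ∧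
    ∀ i : Fin n, ∀ x : Fin n → ℝ, ∑ j, L i j * x j = 0 →
      ∑ j, L i j * ((A.map (Int.cast : ℤ → ℝ)).mulVec x) j = 0

/-- The limits of the systems `a i • (L i ∘ γ)`, `a` positive of product one, `γ` integral of
determinant `±1`. -/
def Limits (L : Fin n → Fin n → ℝ) : Set (Fin n → Fin n → ℝ) :=
  closure {L' | ∃ (a : Fin n → ℝ) (γ : Matrix (Fin n) (Fin n) ℤ), (∀ i, 0 < a i) ∧
    ∏ i, a i = 1 ∧ |γ.det| = 1 ∧ ∀ i j, L' i j = a i * ∑ k, L i k * (γ k j : ℝ)}

/-- `L` is a limit of each of its limits. -/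
def Recurrent (L : Fin n → Fin n → ℝ) : Prop :=
  ∀ L' ∈ Limits L, L ∈ Limits L'

/-- the edge of the planes outside `L i = 0`: the point with `L k (edge L i) = 1` if `k = i` and `0`
otherwise, for independent forms -/
noncomputable def edge (L : Fin n → Fin n → ℝ) (i : Fin n) : Fin n → ℝ :=
  fun j => (Matrix.of L)⁻¹ j i

/-- The product of the forms at `x` and the entries `L i (x) ⟨y, e i⟩` of the projections onto the
edges `e i` along the planes `L i = 0`. -/
noncomputable def vec (L : Fin n → Fin n → ℝ) (x y : Fin n → ℤ) : ℝ × (Fin n → ℝ) :=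
  (F L x, fun i => form L i x * ∑ j : Fin n, (y j : ℝ) * edge L i j)

/-- the vectors of `L` at the images of `(x, y)` under the unimodular matrices `γ` (the image of
`y` is the covector `y'` with `⟨y', γ p⟩ = ⟨y, p⟩`) -/
def Vectors (L : Fin n → Fin n → ℝ) (x y : Fin n → ℤ) : Set (ℝ × (Fin n → ℝ)) :=
  {w | ∃ (γ : Matrix (Fin n) (Fin n) ℤ) (y' : Fin n → ℤ), |γ.det| = 1 ∧
    Matrix.vecMul y' γ = y ∧ w = vec L (γ.mulVec x) y'}

/-- `S` is a C¹ submanifold of dimension at most `m`, the set of zeros in an open set `W` of a C¹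
map `φ` to `ℝ ^ r` with surjective derivatives, where `dim V - r ≤ m`. -/
def Piece {V : Type*} [NormedAddCommGroup V] [NormedSpace ℝ V] (m : ℕ) (S : Set V) : Prop :=
  ∃ (r : ℕ) (W : Set V) (φ : V → Fin r → ℝ), Module.finrank ℝ V ≤ m + r ∧ IsOpen W ∧
    ContDiffOn ℝ 1 φ W ∧ (∀ x ∈ W, Function.Surjective (fderiv ℝ φ x)) ∧
    S = {x | x ∈ W ∧ φ x = 0}

/-- `E` is covered by countably many C¹ submanifolds of dimension at most `m`. -/
def Thin {V : Type*} [NormedAddCommGroup V] [NormedSpace ℝ V] (m : ℕ) (E : Set V) : Prop :=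
  ∃ S : ℕ → Set V, (∀ k, Piece m (S k)) ∧ E ⊆ ⋃ k, S k

lemma edge_spec {L : Fin n → Fin n → ℝ} (hL : LinearIndependent ℝ L) (i k : Fin n) :
    ∑ j, L k j * edge L i j = if k = i then 1 else 0 := by
  have hdet := Pool.Agent.H905R2.Opp.det_ne hL
  have h1 := congrFun (congrFun (Matrix.mul_nonsing_inv (Matrix.of L)
    (isUnit_iff_ne_zero.2 hdet)) k) i
  rw [Matrix.mul_apply, Matrix.one_apply] at h1
  exact h1

lemma thin_iff {V : Type*} [NormedAddCommGroup V] [NormedSpace ℝ V] (m : ℕ) (E : Set V) :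
    Thin m E ↔ Q34.CSDThin.Thin m E := Iff.rfl

lemma limits_eq' (L : Fin n → Fin n → ℝ) :
    Limits L = (closure (H715R2.Orb (Matrix.of L)) : Set (Matrix (Fin n) (Fin n) ℝ)) := by
  have h1 : {L' : Fin n → Fin n → ℝ | ∃ (a : Fin n → ℝ) (γ : Matrix (Fin n) (Fin n) ℤ),
      (∀ i, 0 < a i) ∧ ∏ i, a i = 1 ∧ |γ.det| = 1 ∧
      ∀ i j, L' i j = a i * ∑ k, L i k * (γ k j : ℝ)} =
      (H715R2.Orb (Matrix.of L) : Set (Fin n → Fin n → ℝ)) := by
    ext h
    constructor
    · rintro ⟨a, γ, ha0, ha1, hγ, hh⟩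
      refine ⟨a, γ, ha0, ha1, Int.isUnit_iff_abs_eq.2 hγ, ?_⟩
      funext i j
      rw [hh, Matrix.mul_assoc, Matrix.diagonal_mul, Matrix.mul_apply]
      rfl
    · rintro ⟨a, γ, ha0, ha1, hγ, hh⟩
      refine ⟨a, γ, ha0, ha1, Int.isUnit_iff_abs_eq.1 hγ, fun i j => ?_⟩
      rw [hh, Matrix.mul_assoc, Matrix.diagonal_mul, Matrix.mul_apply]
      rfl
  unfold Limits
  rw [h1]
  rfl

lemma vec_eq (L : Fin n → Fin n → ℝ) (x y : Fin n → ℤ) :
    vec L x y = Q34.CSDThin.ent x y (Matrix.of L) := rfl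

lemma vectors_eq (L : Fin n → Fin n → ℝ) (x y : Fin n → ℤ) :
    Vectors L x y = Q34.CSDThin.Ents x y (Matrix.of L) := by
  ext w
  constructor
  · rintro ⟨γ, y', hγ, hy, hw⟩
    exact ⟨γ, y', Int.isUnit_iff_abs_eq.2 hγ, hy, hw⟩
  · rintro ⟨γ, y', hγ, hy, hw⟩
    exact ⟨γ, y', Int.isUnit_iff_abs_eq.1 hγ, hy, hw⟩

lemma recurrent_iff (L : Fin n → Fin n → ℝ) :
    Recurrent L ↔ TH314.CSD.Recurrent (Matrix.of L) := by
  unfold Recurrent TH314.CSD.Recurrent
  simp only [limits_eq']
  rfl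

lemma minB_of_recurrent {h : Matrix (Fin n) (Fin n) ℝ} (hh : TH314.CSD.Recurrent h) :
    Y327.MinB id (closure (H715R2.Orb h)) := by
  refine ⟨isClosed_closure, ⟨h, subset_closure (H715R2.mem_orb_self h)⟩,
    Y327.invB_of_inv (TH314.CSD.inv_closure h) id, fun Z hZ hZc hZne hZinv => ?_⟩
  obtain ⟨h', hh'⟩ := hZne
  refine subset_antisymm hZ ?_
  have h1 : closure (H715R2.Orb h') ⊆ Z := by
    refine closure_minimal ?_ hZc
    rintro _ ⟨a, γ, ha0, ha1, hγ, rfl⟩
    exact hZinv h' hh' a γ ⟨ha0, ha1, fun i j hij => by rw [show i = j from hij]⟩ hγ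
  exact (TH314.CSD.orb_closure_trans (hh h' (hZ hh'))).trans h1

/-- the vectors on a piece of a minimal set -/
lemma piece_vec (hn : 3 ≤ n) {g : Matrix (Fin n) (Fin n) ℝ} (hg : g.det ≠ 0)
    (hint : ¬ H715R2.PropInt g) {ν : ℝ} (hν : 0 < ν) (hF : H715R2.HasNu g ν)
    {M : Set (Matrix (Fin n) (Fin n) ℝ)} (hMg : M ⊆ closure (H715R2.Orb g))
    (hM : Y327.MinB id M) {O : Set (Matrix (Fin n) (Fin n) ℝ)} (hO : IsOpen O)
    (hne : (O ∩ M).Nonempty) {x y : Fin n → ℤ} (hx : x ≠ 0) (hy : y ≠ 0) {N : ℕ}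
    (hN : N < n - n / n.minFac ∨ Odd n ∧ N ≤ n - n / n.minFac) :
    ¬ Q34.CSDThin.Thin N {w | ∃ g ∈ O ∩ M, w = Q34.CSDThin.ent x y g} := by
  obtain ⟨h₀, hh₀⟩ := hM.ne
  obtain ⟨s, hs, hsd, hR⟩ := Q34.CSDThin.exists_rich hn hg hint hν hF hMg hM hh₀
  have hmin : n.minFac ≤ s := Nat.minFac_le_of_dvd hs hsd
  have hdiv : n / s ≤ n / n.minFac := Nat.div_le_div_left hmin (Nat.minFac_pos n)
  have hle : n / n.minFac ≤ n := Nat.div_le_self _ _
  refine hR.not_thin_ent (by omega) (abs_pos.2 hg) hν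
    (fun h hh => H715R2.abs_det_closure (hMg hh)) (fun h hh => H715R2.hasNu_closure hF (hMg hh))
    (fun i => Y327.Sam.refl _ i) (fun i j hij => hij.symm) (fun i j k hij hjk => hij.trans hjk)
    hs hsd hO hne hx hy ?_
  rcases hN with hN | ⟨hodd, hN⟩
  · left
    omega
  · right
    refine ⟨?_, by omega⟩
    have h2 : s ≠ 2 := by
      rintro rfl
      exact (Nat.not_even_iff_odd.2 hodd) (even_iff_two_dvd.2 hsd)
    omega

lemma not_propInt {L : Fin n → Fin n → ℝ} (hn : 3 ≤ n) (hL : LinearIndependent ℝ L)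
    (hb : BoundedAway L) (hA : ¬ HasMatrix L) : ¬ H715R2.PropInt (Matrix.of L) := fun hP =>
  hA (Pool.Agent.H905R2.Opp.opp_of_propInt (by omega) hL hb hP)

theorem result (n : ℕ) (hn : 3 ≤ n) :
    -- 1. the limits of a counterexample
    (∀ L : Fin n → Fin n → ℝ, LinearIndependent ℝ L → BoundedAway L → ¬ HasMatrix L →
      ∀ L₀ ∈ Limits L, Recurrent L₀ →
        ∀ U : Set (Fin n → Fin n → ℝ), IsOpen U → (U ∩ Limits L₀).Nonempty →
          ∀ x y : Fin n → ℤ, x ≠ 0 → y ≠ 0 →
            ∀ N : ℕ, (N < n - n / n.minFac ∨ Odd n ∧ N ≤ n - n / n.minFac) →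
              ¬ Thin N {w | ∃ L' ∈ U ∩ Limits L₀, w = vec L' x y}) ∧
    -- 2. criteria
    (∀ L : Fin n → Fin n → ℝ, LinearIndependent ℝ L → BoundedAway L →
      ∀ x y : Fin n → ℤ, x ≠ 0 → y ≠ 0 →
        ∀ N : ℕ, (N < n - n / n.minFac ∨ Odd n ∧ N ≤ n - n / n.minFac) →
          (HasMatrix L ↔ (closure (Vectors L x y)).Countable) ∧
          (HasMatrix L ↔ Thin N (closure (Vectors L x y)))) := by
  refine ⟨?_, ?_⟩
  · rintro L hL hb hA L₀ hL₀ hrec U hU hUM x y hx hy N hN
    have hdet := Pool.Agent.H905R2.Opp.det_ne hL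
    have hint := not_propInt hn hL hb hA
    obtain ⟨ν, hν, hF⟩ := hb
    rw [limits_eq'] at hL₀
    have hM := minB_of_recurrent ((recurrent_iff L₀).1 hrec)
    have hMg : closure (H715R2.Orb (Matrix.of L₀)) ⊆ closure (H715R2.Orb (Matrix.of L)) :=
      TH314.CSD.orb_closure_trans hL₀
    rw [limits_eq'] at hUM ⊢
    exact piece_vec hn hdet hint hν hF hMg hM (O := U) hU hUM hx hy hN
  · rintro L hL hb x y hx hy N hN
    have hdet := Pool.Agent.H905R2.Opp.det_ne hL
    rw [vectors_eq]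
    have h1 : HasMatrix L → (closure (Q34.CSDThin.Ents x y (Matrix.of L))).Countable := by
      rintro ⟨A, -, hA1, -, hA2⟩
      obtain ⟨ν, hν, hF⟩ := hb
      have hP := Y327.propInt_of_opp hn hdet hν hF hA1 hA2
      obtain ⟨lam, hlam, hAg⟩ := Y327.eig_of_opp hdet hA1 hA2
      exact Q34.CSDThin.countable_ents (isUnit_iff_ne_zero.2 hdet) hP hlam hAg x y
    have h2 : Q34.CSDThin.Thin N (closure (Q34.CSDThin.Ents x y (Matrix.of L))) →
        HasMatrix L := by
      intro hthin
      by_contra hA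
      have hint := not_propInt hn hL hb hA
      obtain ⟨ν, hν, hF⟩ := hb
      obtain ⟨M, hMg, hM⟩ := Y327.exists_minB (by omega) id (abs_pos.2 hdet) hν isClosed_closure
        ⟨Matrix.of L, subset_closure (H715R2.mem_orb_self _)⟩
        (Y327.invB_of_inv (TH314.CSD.inv_closure (Matrix.of L)) id)
        (fun _ hh => H715R2.abs_det_closure hh) (fun _ hh => H715R2.hasNu_closure hF hh)
      refine piece_vec hn hdet hint hν hF hMg hM isOpen_univ
        (by rw [Set.univ_inter]; exact hM.ne) hx hy hN (hthin.subset ?_)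
      rintro w ⟨h, hh, rfl⟩
      refine Q34.CSDThin.ent_mem (hMg hh.2) ?_ x y
      rw [← abs_ne_zero, H715R2.abs_det_closure (hMg hh.2), abs_ne_zero]
      exact hdet
    have h3 : (closure (Q34.CSDThin.Ents x y (Matrix.of L))).Countable →
        Q34.CSDThin.Thin N (closure (Q34.CSDThin.Ents x y (Matrix.of L))) := fun hC =>
      Q34.CSDThin.thin_countable hC N
    exact ⟨⟨h1, fun hC => h2 (h3 hC)⟩, ⟨fun hP => h3 (h1 hP), h2⟩⟩

end Pool.Agent.Results.MP_77d073_nt.ProjectionEntries
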